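import Pool.Agent.H32.BJ.Dir

/-!
# The cells of the directions and of the sections of the lines with a large Jacobian
-/

set_option autoImplicit false

namespace Pool.BJ

open Finset MvPolynomial
open Pool.Agent.H49.Ent Pool.Agent.H32.Dense Pool.STK Pool.KA
open Pool.SH (Ln lpos lsec)
open Pool.GEN (pnt sbs eval_sbs deg_sbs lagm)
open Pool.BE (Bx cells_near cells_sep cells_inj near_cell lsec_eq)
open Pool.Agent.H50.PW (card_mul_le_volume totalDegree_bind₁_le)

variable {N m E : ℕ}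

/-- The lines of the class at resolution `J`. -/
def LC (J : ℕ) (F : Fin N → MvPolynomial (Option (Fin m)) ℝ) (c : Fin N → ℝ → ℝ) (I : Set ℝ)
    (b θ x : ℝ) : Set (Ln m) :=
  {l | l ∈ Bx m b ∧ (∀ t ∈ I, ∀ y : Fin m → ℝ, (∀ k, |y k| ≤ 1 / 2 ^ J) →
      ∀ a, |eval (pnt t fun k => lpos l t k + y k) (F a) - c a t| ≤ θ) ∧
    ∃ t ∈ I, ∃ y : Fin m → ℝ, (∀ k, |y k| ≤ 1 / 2 ^ J) ∧
      x ≤ JF F (pnt t fun k => lpos l t k + y k)}

/-- The functions on larger balls. -/
theorem ball_ext (m E : ℕ) (R : ℝ) (hR : 1 ≤ R) : ∃ C : ℝ, 1 ≤ C ∧ ∀ (N J : ℕ)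
    (F : Fin N → MvPolynomial (Option (Fin m)) ℝ), (∀ a, (F a).totalDegree ≤ E) →
    ∀ (c : Fin N → ℝ) (t θ : ℝ) (z : Fin m → ℝ),
    (∀ y : Fin m → ℝ, (∀ k, |y k| ≤ 1 / 2 ^ J) → ∀ a,
      |eval (pnt t fun k => z k + y k) (F a) - c a| ≤ θ) →
    ∀ y : Fin m → ℝ, (∀ k, |y k| ≤ R / 2 ^ J) → ∀ a,
      |eval (pnt t fun k => z k + y k) (F a) - c a| ≤ C * θ := by
  obtain ⟨C, hC, hlag⟩ := lagm m E R hR
  refine ⟨C, hC, ?_⟩
  intro N J F hF c t θ z h y hy a
  have hJ : (0 : ℝ) < 2 ^ J := by positivity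
  obtain ⟨Q, hQ⟩ : ∃ Q : MvPolynomial (Fin m) ℝ,
      Q = bind₁ (sbs t (1 / 2 ^ J) z) (F a) - MvPolynomial.C (c a) := ⟨_, rfl⟩
  have hQe : ∀ u : Fin m → ℝ, eval u Q = eval (pnt t fun k => z k + 1 / 2 ^ J * u k) (F a) - c a := by
    intro u
    rw [hQ, map_sub, eval_sbs, eval_C]
  have hQd : Q.totalDegree ≤ E := by
    rw [hQ]
    refine (totalDegree_sub _ _).trans (max_le ?_ ?_)
    · exact (totalDegree_bind₁_le _ (deg_sbs _ _ _) _).trans (hF _)
    · rw [totalDegree_C]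
      exact Nat.zero_le _
  have h1 := hlag Q θ hQd (fun i => by
    rw [hQe]
    refine h _ (fun k => ?_) a
    have h2 : (((i k : Fin (E + 1)) : ℕ) : ℝ) / (E + 1) ≤ 1 := by
      have hE : (0 : ℝ) < (E : ℝ) + 1 := by positivity
      rw [div_le_one hE]
      have := (i k).2.le
      exact_mod_cast this
    have h3 : (0 : ℝ) ≤ (((i k : Fin (E + 1)) : ℕ) : ℝ) / (E + 1) := by positivity
    rw [abs_mul, abs_of_pos (by positivity : (0 : ℝ) < 1 / 2 ^ J), abs_of_nonneg h3]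
    have h4 : (0 : ℝ) < 1 / 2 ^ J := by positivity
    nlinarith only [h2, h4]) (fun k => 2 ^ J * y k) (fun k => by
      rw [abs_mul, abs_of_pos hJ]
      have := hy k
      rw [le_div_iff₀ hJ] at this
      linarith)
  rw [hQe] at h1
  refine le_trans (le_of_eq ?_) h1
  congr 4
  funext k
  field_simp

/-- Counting the cells of the points of a set by the volume of another set. -/
theorem card_cells (J : ℕ) (X : Set (Fin m → ℝ)) (hX : (fl J '' X).Finite) (A : Set (Fin m → ℝ))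
    (h : ∀ x ∈ X, ∀ y : Fin m → ℝ, (∀ k, |y k - x k| ≤ 2 / 2 ^ J) → y ∈ A) {B : ℝ} (hB : 0 ≤ B)
    (hA : MeasureTheory.volume A ≤ ENNReal.ofReal B) :
    (((fl J '' X).ncard : ℕ) : ℝ) ≤ (2 ^ J) ^ m * B := by
  classical
  have hJ : (0 : ℝ) < 2 ^ J := by positivity
  obtain ⟨𝓥, h𝓥⟩ : ∃ 𝓥 : Finset (Fin m → ℤ), 𝓥 = hX.toFinset := ⟨_, rfl⟩
  have hcv : (fl J '' X).ncard = 𝓥.card := by
    rw [h𝓥, Set.ncard_eq_toFinset_card _ hX]
  have h1 := card_mul_le_volume (𝓥.image (fun v k => (v k : ℝ) * (1 / 2 ^ J)))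
    (δ := 1 / 2 ^ J) (by positivity) (cells_sep J 𝓥) A (by
      intro D hD D' hD'
      obtain ⟨v, hv, rfl⟩ := Finset.mem_image.1 hD
      rw [h𝓥, Set.Finite.mem_toFinset] at hv
      obtain ⟨x, hx, rfl⟩ := hv
      rw [Metric.mem_ball] at hD'
      exact h x hx D' (near_cell hD'))
  rw [Finset.card_image_of_injective 𝓥 (cells_inj J), Fintype.card_fin] at h1
  have h2 := h1.trans hA
  rw [← ENNReal.ofReal_natCast, ← ENNReal.ofReal_pow (by positivity),
    ← ENNReal.ofReal_mul (Nat.cast_nonneg _), ENNReal.ofReal_le_ofReal_iff hB] at h2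
  rw [hcv]
  have h3 : (𝓥.card : ℝ) = (2 ^ J) ^ m * (𝓥.card * (1 / 2 ^ J) ^ m) := by
    rw [one_div, inv_pow]
    field_simp
  rw [h3]
  exact mul_le_mul_of_nonneg_left h2 (by positivity)

/-- **(FIN)** The cells of the directions. -/
theorem cell_dir (m N E : ℕ) : ∃ C : ℝ, 1 ≤ C ∧ ∀ (J : ℕ)
    (F : Fin N → MvPolynomial (Option (Fin m)) ℝ),
    (∀ a, (F a).totalDegree ≤ E) → ∀ (c : Fin N → ℝ → ℝ) (a h b θ x : ℝ), 0 ≤ a → 0 < h →
    a + h ≤ 1 → 0 ≤ b → 0 < θ → 0 < x →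
    (fl J '' ((fun l : Ln m => l.2) '' LC J F c (Set.Icc a (a + h)) b θ x)).Finite ∧
    (((fl J '' ((fun l : Ln m => l.2) '' LC J F c (Set.Icc a (a + h)) b θ x)).ncard : ℕ) : ℝ) ≤
      (2 ^ J) ^ m * (C * (1 / h) ^ m * θ ^ m / x) := by
  obtain ⟨C₁, hC₁, hvol⟩ := vol_dir m N E
  obtain ⟨C₂, hC₂, hball⟩ := ball_ext m E 3 (by norm_num)
  refine ⟨C₁ * C₂ ^ m, ?_, ?_⟩
  · have := one_le_pow₀ hC₂ (n := m)
    nlinarith
  intro J F hF c a h b θ x ha hh hah hb hθ hx
  have hJ : (0 : ℝ) < 2 ^ J := by positivity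
  have hJ1 : (1 : ℝ) / 2 ^ J ≤ 1 := by
    rw [div_le_one hJ]
    exact one_le_pow₀ (by norm_num)
  obtain ⟨δ, hδ⟩ : ∃ δ : ℝ, δ = 1 / 2 ^ J := ⟨_, rfl⟩
  have hδ0 : 0 < δ := by rw [hδ]; positivity
  have hfin : (fl J '' ((fun l : Ln m => l.2) '' LC J F c (Set.Icc a (a + h)) b θ x)).Finite := by
    refine (cells_near J _ 0 b hb ?_).1
    rintro _ ⟨l, hl, rfl⟩ i
    simp only [Pi.zero_apply, sub_zero]
    exact hl.1.2 i
  refine ⟨hfin, ?_⟩
  refine card_cells J _ hfin ((fun l : Ln m => l.2) ''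
    LV F c (Set.Icc a (a + h)) (b + 4) (C₂ * θ) x) ?_ (by positivity)
    ((hvol F hF c a h (b + 4) (C₂ * θ) x hh (by linarith) (by positivity) hx).trans
      (ENNReal.ofReal_le_ofReal (le_of_eq (by rw [mul_pow]; ring))))
  rintro _ ⟨l, ⟨hl, hl1, t₀, ht₀, y₀, hy₀, hl2⟩, rfl⟩ D hD
  have ht₀1 : 0 ≤ t₀ := ha.trans ht₀.1
  have ht₀2 : t₀ ≤ 1 := ht₀.2.trans hah
  obtain ⟨U, hU⟩ : ∃ U : Fin m → ℝ, U = fun k => l.1 k + y₀ k - t₀ * (D k - l.2 k) := ⟨_, rfl⟩
  have hD' : ∀ k, |D k - l.2 k| ≤ 2 * δ := by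
    intro k
    have := hD k
    rw [hδ]
    rw [mul_one_div]
    exact this
  have hy' : ∀ k, |y₀ k| ≤ δ := by
    intro k
    rw [hδ]
    exact hy₀ k
  have hδ1 : δ ≤ 1 := by rw [hδ]; exact hJ1
  refine ⟨(U, D), ⟨⟨fun k => ?_, fun k => ?_⟩, ?_, t₀, ht₀, ?_⟩, rfl⟩
  · rw [hU]
    simp only
    have h1 := hl.1 k
    have h2 : |t₀ * (D k - l.2 k)| ≤ 2 * δ := by
      rw [abs_mul, abs_of_nonneg ht₀1]
      have := mul_le_mul ht₀2 (hD' k) (abs_nonneg _) zero_le_one
      linarith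
    calc |l.1 k + y₀ k - t₀ * (D k - l.2 k)| ≤ |l.1 k + y₀ k| + |t₀ * (D k - l.2 k)| := abs_sub _ _
      _ ≤ (|l.1 k| + |y₀ k|) + 2 * δ := add_le_add (abs_add_le _ _) h2
      _ ≤ b + 4 := by
          have := hy' k
          linarith
  · simp only
    have h1 := hl.2 k
    have e : D k = l.2 k + (D k - l.2 k) := by ring
    rw [e]
    refine (abs_add_le _ _).trans ?_
    have := hD' k
    linarith
  · intro t ht a'
    have ht1 : 0 ≤ t := ha.trans ht.1
    have ht2 : t ≤ 1 := ht.2.trans hah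
    obtain ⟨y, hy⟩ : ∃ y : Fin m → ℝ, y = fun k => y₀ k + (t - t₀) * (D k - l.2 k) := ⟨_, rfl⟩
    have e : lpos (U, D) t = fun k => lpos l t k + y k := by
      funext k
      rw [hy]
      unfold lpos
      rw [hU]
      simp only
      ring
    rw [e]
    refine hball N J F hF (fun a => c a t) t θ (lpos l t) (fun y hy a => hl1 t ht y hy a) y
      (fun k => ?_) a'
    rw [hy]
    simp only
    refine (abs_add_le _ _).trans ?_
    rw [abs_mul]
    have h1 : |t - t₀| ≤ 1 := by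
      rw [abs_le]
      constructor <;> linarith
    have h2 := mul_le_mul h1 (hD' k) (abs_nonneg _) zero_le_one
    have h3 := hy' k
    have h4 : (3 : ℝ) / 2 ^ J = 3 * δ := by
      rw [hδ]
      ring
    rw [h4]
    linarith
  · have e : lpos (U, D) t₀ = fun k => lpos l t₀ k + y₀ k := by
      funext k
      unfold lpos
      rw [hU]
      simp only
      ring
    rw [e]
    exact hl2

/-- **(PKR)** The cells of the positions at a time. -/
theorem cell_sec (m N E : ℕ) : ∃ C : ℝ, 1 ≤ C ∧ ∀ (J : ℕ)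
    (F : Fin N → MvPolynomial (Option (Fin m)) ℝ),
    (∀ a, (F a).totalDegree ≤ E) → ∀ (c : Fin N → ℝ → ℝ) (a h r t b θ x : ℝ), 0 < h → h ≤ r →
    |t - a| ≤ r → 0 ≤ b → 0 < θ → 0 < x →
    (lsec J t (LC J F c (Set.Icc a (a + h)) b θ x)).Finite ∧
    (((lsec J t (LC J F c (Set.Icc a (a + h)) b θ x)).ncard : ℕ) : ℝ) ≤
      (2 ^ J) ^ m * (C * (r / h) ^ m * θ ^ m / x) := by
  obtain ⟨C₁, hC₁, hvol⟩ := vol_sec m N E
  obtain ⟨C₃, hC₃, hnod⟩ := line_nodes m E
  obtain ⟨K, hK⟩ : ∃ K : ℕ, K = nK m E := ⟨_, rfl⟩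
  have hK0 : 1 ≤ K := by rw [hK]; exact le_trans (Nat.succ_pos _) (Nat.le_add_left _ _)
  have hKr : (1 : ℝ) ≤ K := by exact_mod_cast hK0
  obtain ⟨C₂, hC₂, hball⟩ := ball_ext m E (14 * K) (by linarith)
  refine ⟨C₁ * C₂ ^ m * C₃, ?_, ?_⟩
  · have h1 := one_le_pow₀ hC₂ (n := m)
    have h2 : 1 ≤ C₁ * C₂ ^ m := by nlinarith
    nlinarith
  intro J F hF c a h r t b θ x hh hhr htr hb hθ hx
  have hJ : (0 : ℝ) < 2 ^ J := by positivity
  obtain ⟨δ, hδ⟩ : ∃ δ : ℝ, δ = 1 / 2 ^ J := ⟨_, rfl⟩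
  have hδ0 : 0 < δ := by rw [hδ]; positivity
  have hr0 : 0 < r := hh.trans_le hhr
  have hfin : (fl J '' ((fun l : Ln m => lpos l t) ''
      LC J F c (Set.Icc a (a + h)) b θ x)).Finite := by
    refine (cells_near J _ 0 (b + |t| * b) (by positivity) ?_).1
    rintro _ ⟨l, hl, rfl⟩ i
    simp only [Pi.zero_apply, sub_zero]
    unfold lpos
    refine (abs_add_le _ _).trans (add_le_add (hl.1.1 i) ?_)
    rw [abs_mul]
    exact mul_le_mul_of_nonneg_left (hl.1.2 i) (abs_nonneg _)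
  rw [lsec_eq]
  refine ⟨hfin, ?_⟩
  obtain ⟨b', hb'⟩ : ∃ b' : ℝ, b' = b + 2 * δ + (1 + |t|) * (6 * K * δ / h) := ⟨_, rfl⟩
  refine card_cells J _ hfin ((fun l : Ln m => lpos l t) ''
    LV F c (Set.Icc a (a + h)) b' (C₂ * θ) (x / C₃)) ?_ (by positivity)
    ((hvol F hF c a h r t b' (C₂ * θ) (x / C₃) hh hhr htr (by positivity) (by positivity)).trans
      (ENNReal.ofReal_le_ofReal (le_of_eq (by rw [mul_pow]; field_simp))))
  rintro _ ⟨l, ⟨hl, hl1, t₀, ht₀, y₀, hy₀, hl2⟩, rfl⟩ y' hy'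
  have h6 : 0 ≤ 6 * K * δ / h := by positivity
  have ht0 := abs_nonneg t
  rcases Nat.eq_zero_or_pos m with hm | hm
  · -- dimension zero
    subst hm
    refine ⟨l, ⟨⟨fun k => k.elim0, fun k => k.elim0⟩, ?_, t₀, ht₀, ?_⟩,
      Subsingleton.elim _ _⟩
    · intro s hs a'
      have h1 := hl1 s hs y₀ hy₀ a'
      have e : (fun k => lpos l s k + y₀ k) = lpos l s := Subsingleton.elim _ _
      rw [e] at h1
      nlinarith
    · have e : (fun k => lpos l t₀ k + y₀ k) = lpos l t₀ := Subsingleton.elim _ _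
      rw [e] at hl2
      refine le_trans ?_ hl2
      exact div_le_self hx.le hC₃
  · -- the parallel line
    obtain ⟨S, hS⟩ := exists_jm (M := dM F (pnt t₀ fun k => lpos l t₀ k + y₀ k))
      (hx.trans_le hl2)
    obtain ⟨σ, hσ, hσ2⟩ := hnod N F hF S (fun k => l.1 k + y₀ k) l.2 a h t₀ x hh ht₀ hx (by
      have e : (fun k => l.1 k + y₀ k + t₀ * l.2 k) = fun k => lpos l t₀ k + y₀ k := by
        funext k
        unfold lpos
        ring
      rw [e, hS]
      exact hl2)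
    -- a node which is far from `t`
    have hfar : ∃ j, h / (2 * K) ≤ |(a + h * nd (nK m E) (σ j)) - t| := by
      have hcard : 1 < Fintype.card (Fin m) + 1 := by
        rw [Fintype.card_fin]
        omega
      obtain ⟨j₁, hj₁⟩ : ∃ j : Fin (Fintype.card (Fin m) + 1), j = ⟨0, by omega⟩ := ⟨_, rfl⟩
      obtain ⟨j₂, hj₂⟩ : ∃ j : Fin (Fintype.card (Fin m) + 1), j = ⟨1, hcard⟩ := ⟨_, rfl⟩
      have hne : j₁ ≠ j₂ := by
        rw [hj₁, hj₂]
        intro h0
        exact absurd (Fin.ext_iff.1 h0) (by norm_num)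
      have h1 := nodes_sep (a := a) (K := nK m E) hh hσ hne
      have hKe : ((nK m E : ℕ) : ℝ) = K := by rw [hK]
      rw [hKe] at h1
      by_contra hcon
      push Not at hcon
      have h2 := hcon j₁
      have h3 := hcon j₂
      have h4 : |(a + h * nd (nK m E) (σ j₁)) - (a + h * nd (nK m E) (σ j₂))| <
          h / (2 * K) + h / (2 * K) := by
        have e : (a + h * nd (nK m E) (σ j₁)) - (a + h * nd (nK m E) (σ j₂)) =
          ((a + h * nd (nK m E) (σ j₁)) - t) - ((a + h * nd (nK m E) (σ j₂)) - t) := by ring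
        rw [e]
        exact (abs_sub _ _).trans_lt (add_lt_add h2 h3)
      have h5 : h / (2 * K) + h / (2 * K) = h / (K : ℝ) := by
        field_simp
        norm_num
      rw [h5] at h4
      linarith
    obtain ⟨j, hj⟩ := hfar
    obtain ⟨t₁, ht₁⟩ : ∃ t₁ : ℝ, t₁ = a + h * nd (nK m E) (σ j) := ⟨_, rfl⟩
    have hmem : t₁ ∈ Set.Icc a (a + h) := by
      rw [ht₁]
      have h1 := nd_mem (nK m E) (σ j)
      have h2 := mul_nonneg hh.le h1.1
      have h3 := mul_le_mul_of_nonneg_left h1.2 hh.le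
      constructor <;> linarith
    have hj1 := hσ2 j
    rw [← ht₁] at hj hj1
    have hpos : 0 < h / (2 * K) := by positivity
    have hd0 : 0 < |t₁ - t| := hpos.trans_le hj
    have hd1 : t₁ - t ≠ 0 := abs_pos.1 hd0
    obtain ⟨e₀, he₀⟩ : ∃ e₀ : Fin m → ℝ, e₀ = fun k => y' k - lpos l t k := ⟨_, rfl⟩
    have he₀1 : ∀ k, |e₀ k| ≤ 2 * δ := by
      intro k
      rw [he₀, hδ, mul_one_div]
      exact hy' k
    have hy₀1 : ∀ k, |y₀ k| ≤ δ := by
      intro k
      rw [hδ]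
      exact hy₀ k
    obtain ⟨v, hv⟩ : ∃ v : Fin m → ℝ, v = fun k => (y₀ k - e₀ k) / (t₁ - t) := ⟨_, rfl⟩
    have hye : ∀ k, |y₀ k - e₀ k| ≤ 3 * δ := by
      intro k
      refine (abs_sub _ _).trans ?_
      linarith [he₀1 k, hy₀1 k]
    have hv1 : ∀ k, |v k| ≤ 6 * K * δ / h := by
      intro k
      rw [hv]
      simp only
      rw [abs_div, div_le_iff₀ hd0]
      have h1 : 3 * δ = 6 * K * δ / h * (h / (2 * K)) := by
        field_simp
        norm_num
      refine (hye k).trans ?_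
      rw [h1]
      exact mul_le_mul_of_nonneg_left hj h6
    have hpo : ∀ s, lpos (fun k => l.1 k + (e₀ k - t * v k), fun k => l.2 k + v k) s =
        fun k => lpos l s k + (e₀ k + (s - t) * v k) := by
      intro s
      funext k
      unfold lpos
      ring
    refine ⟨(fun k => l.1 k + (e₀ k - t * v k), fun k => l.2 k + v k),
      ⟨⟨fun k => ?_, fun k => ?_⟩, ?_, t₁, hmem, ?_⟩, ?_⟩
    · simp only
      refine (abs_add_le _ _).trans ?_
      have h1 : |e₀ k - t * v k| ≤ 2 * δ + |t| * (6 * K * δ / h) := by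
        refine (abs_sub _ _).trans (add_le_add (he₀1 k) ?_)
        rw [abs_mul]
        exact mul_le_mul_of_nonneg_left (hv1 k) ht0
      have h2 := hl.1 k
      rw [hb']
      linarith
    · simp only
      refine (abs_add_le _ _).trans ?_
      have h1 := hv1 k
      have h2 := hl.2 k
      have h3 : 0 ≤ |t| * (6 * K * δ / h) := by positivity
      rw [hb']
      linarith
    · intro s hs a'
      rw [hpo]
      refine hball N J F hF (fun a => c a s) s θ (lpos l s) (fun y hy a => hl1 s hs y hy a)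
        (fun k => e₀ k + (s - t) * v k) (fun k => ?_) a'
      refine (abs_add_le _ _).trans ?_
      have h1 : |s - t| ≤ 4 * K * |t₁ - t| := by
        have g1 : |s - t₁| ≤ h := by
          rw [abs_le]
          constructor <;> linarith [hs.1, hs.2, hmem.1, hmem.2]
        have g2 : h ≤ 2 * K * |t₁ - t| := by
          have g3 := mul_le_mul_of_nonneg_left hj (by positivity : (0 : ℝ) ≤ 2 * K)
          have g4 : 2 * (K : ℝ) * (h / (2 * K)) = h := by field_simp
          linarith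
        have g5 : |s - t| ≤ |s - t₁| + |t₁ - t| := by
          have e : s - t = (s - t₁) + (t₁ - t) := by ring
          rw [e]
          exact abs_add_le _ _
        have g6 : |t₁ - t| ≤ 2 * K * |t₁ - t| := by nlinarith
        linarith
      have h2 : |(s - t) * v k| ≤ 12 * K * δ := by
        rw [abs_mul, hv]
        simp only
        rw [abs_div, ← mul_div_assoc, div_le_iff₀ hd0]
        have g1 := mul_le_mul h1 (hye k) (abs_nonneg _) (by positivity)
        linarith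
      have h4 : (14 * (K : ℝ)) / 2 ^ J = 14 * K * δ := by
        rw [hδ]
        ring
      rw [h4]
      have h5 := he₀1 k
      have h7 : δ ≤ K * δ := by nlinarith
      linarith
    · have e : lpos (fun k => l.1 k + (e₀ k - t * v k), fun k => l.2 k + v k) t₁ =
          fun k => l.1 k + y₀ k + t₁ * l.2 k := by
        rw [hpo]
        funext k
        rw [hv]
        unfold lpos
        simp only
        rw [mul_div_assoc', mul_comm (t₁ - t), mul_div_cancel_right₀ _ hd1]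
        ring
      rw [e]
      exact hj1.trans (le_jm _ S)
    · change lpos _ t = y'
      rw [hpo]
      funext k
      rw [he₀, sub_self, zero_mul, add_zero]
      ring

end Pool.BJ
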