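import Pool.Agent.H32.BJ.Jm
import Pool.Agent.H32.BE.Sec
import Pool.Agent.H32.KR.Cnt

/-!
# Bodies in the space of functions of the time and of the point, and their Jacobians

A body is a finite family `F : Fin N → MvPolynomial (Option (Fin m)) ℝ` of functions of the time
(variable `none`) and of the point (variables `some j`): its unit ball is the set of the
combinations of the `F a` with coefficients at most one. For a body of the class `V_E` the functions
are given by their coefficients (`fn`).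
-/

set_option autoImplicit false

namespace Pool.BJ

open Finset MvPolynomial
open Pool.SH (Ln lpos)
open Pool.GEN (pnt)
open Pool.BE (Bx)

variable {N N' m E : ℕ}

/-- The exponents: degree at most `E` in each variable. -/
abbrev Ix (m E : ℕ) : Type := Option (Fin m) → Fin (E + 1)

/-- The monomials. -/
noncomputable def mon (α : Ix m E) : MvPolynomial (Option (Fin m)) ℝ := ∏ o, X o ^ (α o : ℕ)

/-- The vector of the monomials at a point. -/
noncomputable def phi (E : ℕ) (b : Option (Fin m) → ℝ) (α : Ix m E) : ℝ := ∏ o, b o ^ (α o : ℕ)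

/-- The functions with the coefficients `A`. -/
noncomputable def fn (A : Matrix (Fin N) (Ix m E) ℝ) (a : Fin N) :
    MvPolynomial (Option (Fin m)) ℝ := ∑ α, C (A a α) * mon α

theorem eval_mon (b : Option (Fin m) → ℝ) (α : Ix m E) : eval b (mon α) = phi E b α := by
  simp only [mon, phi, map_prod, map_pow, eval_X]

theorem eval_fn (A : Matrix (Fin N) (Ix m E) ℝ) (b : Option (Fin m) → ℝ) (a : Fin N) :
    eval b (fn A a) = ∑ α, A a α * phi E b α := by
  simp only [fn, map_sum, map_mul, eval_C, eval_mon]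

/-- The derivatives of the functions in the directions of the space, at a point. -/
noncomputable def dM (F : Fin N → MvPolynomial (Option (Fin m)) ℝ) (b : Option (Fin m) → ℝ) :
    Matrix (Fin N) (Fin m) ℝ := Matrix.of fun a j => eval b (pderiv (some j) (F a))

/-- The Jacobian of the body at a point. -/
noncomputable def JF (F : Fin N → MvPolynomial (Option (Fin m)) ℝ) (b : Option (Fin m) → ℝ) : ℝ :=
  jm (dM F b)

theorem JF_nonneg (F : Fin N → MvPolynomial (Option (Fin m)) ℝ) (b : Option (Fin m) → ℝ) :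
    0 ≤ JF F b := jm_nonneg _

/-- The set of the values of the Jacobian near a line, at resolution `J`, at the times in `I`. -/
def JSet (J : ℕ) (F : Fin N → MvPolynomial (Option (Fin m)) ℝ) (I : Set ℝ) (l : Ln m) : Set ℝ :=
  {x | ∃ t ∈ I, ∃ y : Fin m → ℝ, (∀ k, |y k| ≤ 1 / 2 ^ J) ∧
    x = JF F (pnt t fun k => lpos l t k + y k)}

/-- The Jacobian of the body along a line, at resolution `J`, over the times in `I`. -/
noncomputable def JW (J : ℕ) (F : Fin N → MvPolynomial (Option (Fin m)) ℝ) (I : Set ℝ)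
    (l : Ln m) : ℝ := sSup (JSet J F I l)

/-- A body written in another body: the derivatives. -/
theorem dM_mul (Q : Matrix (Fin N') (Fin N) ℝ) (F : Fin N → MvPolynomial (Option (Fin m)) ℝ)
    (F' : Fin N' → MvPolynomial (Option (Fin m)) ℝ) (h : ∀ a, F' a = ∑ b, C (Q a b) * F b)
    (b : Option (Fin m) → ℝ) : dM F' b = Q * dM F b := by
  ext a j
  simp only [dM, Matrix.of_apply, Matrix.mul_apply]
  rw [h a]
  simp only [map_sum, map_mul, eval_C, pderiv_C_mul]

/-- **(MON)** The Jacobian of a larger body is smaller: `F' = Q F`. -/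
theorem JF_mul_le (Q : Matrix (Fin N') (Fin N) ℝ) (F : Fin N → MvPolynomial (Option (Fin m)) ℝ)
    (F' : Fin N' → MvPolynomial (Option (Fin m)) ℝ) (h : ∀ a, F' a = ∑ b, C (Q a b) * F b)
    {κ : ℝ} (hκ : 0 ≤ κ) (hQ : ∀ a b, |Q a b| ≤ κ) (b : Option (Fin m) → ℝ) :
    JF F' b ≤ (N * κ) ^ m * JF F b := by
  unfold JF
  rw [dM_mul Q F F' h b]
  exact jm_mul_le Q _ hκ hQ

/-- A sub-family: `F' = F ∘ i`. -/
theorem JF_comp_le (F : Fin N → MvPolynomial (Option (Fin m)) ℝ) (i : Fin N' → Fin N)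
    (b : Option (Fin m) → ℝ) : JF (fun a => F (i a)) b ≤ JF F b := by
  refine jm_le (jm_nonneg _) fun S => ?_
  exact le_jm (dM F b) (fun k => i (S k))

/-- The values are bounded on the lines of a box. -/
theorem bdd_JSet (J : ℕ) (F : Fin N → MvPolynomial (Option (Fin m)) ℝ) {I : Set ℝ}
    (hI : I ⊆ Set.Icc 0 1) (l : Ln m) : BddAbove (JSet J F I l) := by
  classical
  -- each minor is a continuous function
  have hc : ∀ S : Fin m → Fin N, ∃ M : ℝ, ∀ t ∈ Set.Icc (0 : ℝ) 1, ∀ y : Fin m → ℝ,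
      (∀ k, |y k| ≤ 1) → |mnr (dM F (pnt t fun k => lpos l t k + y k)) S| ≤ M := by
    intro S
    have hK : IsCompact ((Set.Icc (0 : ℝ) 1) ×ˢ (Metric.closedBall (0 : Fin m → ℝ) 1)) :=
      isCompact_Icc.prod (isCompact_closedBall _ _)
    have hcont : Continuous fun x : ℝ × (Fin m → ℝ) =>
        mnr (dM F (pnt x.1 fun k => lpos l x.1 k + x.2 k)) S := by
      unfold mnr dM
      refine Continuous.matrix_det ?_
      refine continuous_matrix fun i j => ?_
      simp only [Matrix.of_apply]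
      refine (MvPolynomial.continuous_eval _).comp ?_
      refine continuous_pi fun o => ?_
      cases o with
      | none => exact continuous_fst
      | some k =>
        simp only [pnt, lpos]
        fun_prop
    obtain ⟨M, hM⟩ := hK.exists_bound_of_continuousOn hcont.continuousOn
    refine ⟨M, fun t ht y hy => ?_⟩
    have h1 := hM (t, y) ⟨ht, by
      rw [mem_closedBall_zero_iff, pi_norm_le_iff_of_nonneg zero_le_one]
      exact hy⟩
    rwa [Real.norm_eq_abs] at h1
  choose M hM using hc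
  refine ⟨∑ S : Fin m → Fin N, |M S|, ?_⟩
  rintro x ⟨t, ht, y, hy, rfl⟩
  refine jm_le (Finset.sum_nonneg fun S _ => abs_nonneg _) fun S => ?_
  have hJ : (1 : ℝ) / 2 ^ J ≤ 1 := by
    rw [div_le_one (by positivity)]
    exact one_le_pow₀ (by norm_num)
  refine (hM S t (hI ht) y fun k => (hy k).trans hJ).trans ((le_abs_self _).trans ?_)
  exact Finset.single_le_sum (f := fun S => |M S|) (fun S _ => abs_nonneg _) (Finset.mem_univ S)

theorem le_JW {J : ℕ} {F : Fin N → MvPolynomial (Option (Fin m)) ℝ} {I : Set ℝ}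
    (hI : I ⊆ Set.Icc 0 1) {l : Ln m} {t : ℝ} (ht : t ∈ I) {y : Fin m → ℝ}
    (hy : ∀ k, |y k| ≤ 1 / 2 ^ J) : JF F (pnt t fun k => lpos l t k + y k) ≤ JW J F I l :=
  le_csSup (bdd_JSet J F hI l) ⟨t, ht, y, hy, rfl⟩

theorem JW_nonneg (J : ℕ) (F : Fin N → MvPolynomial (Option (Fin m)) ℝ) (I : Set ℝ) (l : Ln m) :
    0 ≤ JW J F I l := by
  refine Real.sSup_nonneg ?_
  rintro x ⟨t, -, y, -, rfl⟩
  exact JF_nonneg _ _

theorem exists_JW {J : ℕ} {F : Fin N → MvPolynomial (Option (Fin m)) ℝ} {I : Set ℝ} {l : Ln m}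
    {c : ℝ} (hc : c < JW J F I l) (hc0 : 0 ≤ c) : ∃ t ∈ I, ∃ y : Fin m → ℝ,
      (∀ k, |y k| ≤ 1 / 2 ^ J) ∧ c < JF F (pnt t fun k => lpos l t k + y k) := by
  have hne : (JSet J F I l).Nonempty := by
    by_contra hcon
    rw [Set.not_nonempty_iff_eq_empty] at hcon
    unfold JW at hc
    rw [hcon, Real.sSup_empty] at hc
    linarith
  obtain ⟨x, ⟨t, ht, y, hy, rfl⟩, hx⟩ := exists_lt_of_lt_csSup hne hc
  exact ⟨t, ht, y, hy, hx⟩

theorem JW_mono {J : ℕ} {F : Fin N → MvPolynomial (Option (Fin m)) ℝ} {I I' : Set ℝ} (h : I ⊆ I')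
    (hI : I' ⊆ Set.Icc 0 1) (l : Ln m) : JW J F I l ≤ JW J F I' l := by
  rcases (JSet J F I l).eq_empty_or_nonempty with h0 | h0
  · unfold JW
    rw [h0, Real.sSup_empty]
    exact JW_nonneg J F I' l
  · refine csSup_le_csSup (bdd_JSet J F hI l) h0 ?_
    rintro x ⟨t, ht, y, hy, hx⟩
    exact ⟨t, h ht, y, hy, hx⟩

/-- **(MON)** along a line. -/
theorem JW_mul_le (Q : Matrix (Fin N') (Fin N) ℝ) (F : Fin N → MvPolynomial (Option (Fin m)) ℝ)
    (F' : Fin N' → MvPolynomial (Option (Fin m)) ℝ) (h : ∀ a, F' a = ∑ b, C (Q a b) * F b)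
    {κ : ℝ} (hκ : 0 ≤ κ) (hQ : ∀ a b, |Q a b| ≤ κ) {J : ℕ} {I : Set ℝ} (hI : I ⊆ Set.Icc 0 1)
    (l : Ln m) : JW J F' I l ≤ (N * κ) ^ m * JW J F I l := by
  refine Real.sSup_le ?_ (mul_nonneg (by positivity) (JW_nonneg J F I l))
  rintro x ⟨t, ht, y, hy, rfl⟩
  refine (JF_mul_le Q F F' h hκ hQ _).trans ?_
  exact mul_le_mul_of_nonneg_left (le_JW hI ht hy) (by positivity)

end Pool.BJ
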