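import Pool.Agent.H32.BJ.Vol

/-!
# The volume of the directions of the lines with a large Jacobian
-/

set_option autoImplicit false

namespace Pool.BJ

open Finset MvPolynomial
open scoped Pointwise
open Pool.SH (Ln lpos lsec)
open Pool.GEN (pnt sbs eval_sbs deg_sbs lagm)
open Pool.BE (Bx)
open Pool.Agent.H50.PW (jac wt wz wt_nonneg wz_nonneg impC impC_nonneg)

variable {N m E : ℕ}

/-- **(FIN, volume form)** The directions of the lines of the class. -/
theorem vol_dir (m N E : ℕ) : ∃ C : ℝ, 1 ≤ C ∧ ∀ (F : Fin N → MvPolynomial (Option (Fin m)) ℝ),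
    (∀ a, (F a).totalDegree ≤ E) → ∀ (c : Fin N → ℝ → ℝ) (a h b θ x : ℝ), 0 < h → 0 < b →
    0 < θ → 0 < x →
    MeasureTheory.volume ((fun l : Ln m => l.2) '' LV F c (Set.Icc a (a + h)) b θ x) ≤
      ENNReal.ofReal (C * (1 / h) ^ m * θ ^ m / x) := by
  classical
  obtain ⟨C₁, hC₁, hnod⟩ := line_nodes m E
  obtain ⟨K, hK⟩ : ∃ K : ℕ, K = nK m E := ⟨_, rfl⟩
  have hK0 : 0 < K := by rw [hK]; exact Nat.lt_of_lt_of_le (Nat.succ_pos _) (Nat.le_add_left _ _)
  have hKr : (0 : ℝ) < K := by exact_mod_cast hK0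
  obtain ⟨Q, hQ⟩ : ∃ Q : ℝ, Q = Fintype.card ((Fin m → Fin N) ×
    (Fin (Fintype.card (Fin m) + 1) → Fin (nK m E))) * (impC m (E + 1) *
      ((m + 1) * ((K : ℝ) ^ m * C₁))) := ⟨_, rfl⟩
  have himp := impC_nonneg m (E + 1)
  have hQ0 : 0 ≤ Q := by rw [hQ]; positivity
  refine ⟨1 + Q, by linarith, ?_⟩
  intro F hF c a h b θ x hh hb hθ hx
  obtain ⟨s, hs⟩ : ∃ s : (Fin (Fintype.card (Fin m) + 1) → Fin (nK m E)) →
      Fin (Fintype.card (Fin m) + 1) → ℝ,
      s = fun σ j => a + h * nd (nK m E) (σ j) := ⟨_, rfl⟩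
  obtain ⟨V, hV⟩ : ∃ V : (Fin m → Fin N) × (Fin (Fintype.card (Fin m) + 1) → Fin (nK m E)) →
      Set (Fin m → ℝ), V = fun q => if Function.Injective q.2 then
        {D : Fin m → ℝ | ‖D‖ ≤ 1 ∧ ∃ U : Fin m → ℝ, ‖U‖ ≤ 1 ∧ ∀ j,
        (∀ k, |eval (fun i => U i + s q.2 j * D i)
          (eqn F q.1 (s q.2 j) b (fun e => c e (s q.2 j)) k)| ≤ θ) ∧
        b ^ m * (x / C₁) ≤ |(jac (eqn F q.1 (s q.2 j) b (fun e => c e (s q.2 j)))
          (fun i => U i + s q.2 j * D i)).det|} else ∅ := ⟨_, rfl⟩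
  have hsub : (fun l : Ln m => l.2) '' LV F c (Set.Icc a (a + h)) b θ x ⊆ ⋃ q, b • V q := by
    rintro _ ⟨l, ⟨hl, hl1, t₀, ht₀, hl2⟩, rfl⟩
    obtain ⟨S, hS⟩ := exists_jm (M := dM F (pnt t₀ (lpos l t₀))) (hx.trans_le hl2)
    obtain ⟨σ, hσ, hσ2⟩ := hnod N F hF S l.1 l.2 a h t₀ x hh ht₀ hx (by
      change x ≤ |mnr (dM F (pnt t₀ (lpos l t₀))) S|
      rw [hS]
      exact hl2)
    rw [Set.mem_iUnion]
    refine ⟨(S, σ), fun k => l.2 k / b, ?_, ?_⟩
    · rw [hV]
      simp only [if_pos hσ]
      have hpos : ∀ j, (fun i => b * (l.1 i / b + s σ j * (l.2 i / b))) = lpos l (s σ j) := by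
        intro j
        funext i
        unfold lpos
        field_simp
      refine ⟨?_, fun k => l.1 k / b, ?_, fun j => ⟨fun k => ?_, ?_⟩⟩
      · rw [pi_norm_le_iff_of_nonneg zero_le_one]
        intro k
        rw [Real.norm_eq_abs, abs_div, abs_of_pos hb]
        exact div_le_one_of_le₀ (hl.2 k) hb.le
      · rw [pi_norm_le_iff_of_nonneg zero_le_one]
        intro k
        rw [Real.norm_eq_abs, abs_div, abs_of_pos hb]
        exact div_le_one_of_le₀ (hl.1 k) hb.le
      · rw [eval_eqn, hpos]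
        refine hl1 _ ?_ _
        rw [hs]
        have h1 := nd_mem (nK m E) (σ j)
        have h2 := mul_nonneg hh.le h1.1
        have h3 := mul_le_mul_of_nonneg_left h1.2 hh.le
        constructor <;> simp only <;> linarith
      · rw [jac_eqn, hpos, abs_mul, abs_of_pos (by positivity : 0 < b ^ m)]
        refine mul_le_mul_of_nonneg_left ?_ (by positivity)
        rw [hs]
        exact hσ2 j
    · funext k
      simp only [Pi.smul_apply, smul_eq_mul]
      field_simp
  refine (MeasureTheory.measure_mono hsub).trans ?_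
  refine (MeasureTheory.measure_iUnion_fintype_le _ _).trans ?_
  have hVq : ∀ q, MeasureTheory.volume (b • V q) ≤ ENNReal.ofReal (impC m (E + 1) *
      ((m + 1) * ((K : ℝ) ^ m * C₁)) * ((1 / h) ^ m * θ ^ m / x)) := by
    intro q
    rw [MeasureTheory.Measure.addHaar_smul, Module.finrank_fin_fun]
    rw [hV]
    simp only
    split_ifs with hσ
    · have hsinj : Function.Injective (s q.2) := by
        intro i j hij
        by_contra hne
        rw [hs] at hij
        have h1 := nodes_sep (a := a) (K := nK m E) hh hσ hne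
        simp only at hij
        rw [hij, sub_self, abs_zero, ← hK] at h1
        have : 0 < h / (K : ℝ) := by positivity
        linarith
      have hx0 : 0 < x / C₁ := div_pos hx (lt_of_lt_of_le one_pos hC₁)
      have h1 := vol_imp_dir (μ := Fin m) (d := E + 1) (Nat.succ_le_succ (Nat.zero_le _))
        1 (fun j => eqn F q.1 (s q.2 j) b (fun e => c e (s q.2 j)))
        (fun j k => (deg_eqn F hF q.1 _ _ _ k).trans (Nat.le_succ E))
        (fun _ _ => θ) (fun _ _ => hθ) (fun _ => b ^ m * (x / C₁))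
        (fun _ => by positivity) (s q.2) hsinj
      have ei : impC (Fintype.card (Fin m)) (E + 1) = impC m (E + 1) := by
        rw [Fintype.card_fin]
      rw [ei] at h1
      refine (mul_le_mul_right h1 _).trans ?_
      rw [← ENNReal.ofReal_mul (abs_nonneg _)]
      refine ENNReal.ofReal_le_ofReal ?_
      rw [abs_of_pos (by positivity : 0 < b ^ m)]
      have hprod : ∏ _k : Fin m, θ = θ ^ m := by
        rw [Finset.prod_const, Finset.card_univ, Fintype.card_fin]
      simp only [hprod]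
      have hwt : ∀ j, wt (s q.2) j * θ ^ m / (b ^ m * (x / C₁)) ≤
          ((K : ℝ) / h) ^ m * θ ^ m / (b ^ m * (x / C₁)) := by
        intro j
        refine div_le_div_of_nonneg_right ?_ (by positivity)
        refine mul_le_mul_of_nonneg_right ?_ (by positivity)
        refine wt_le' hh hKr ?_ j
        intro i j hij
        rw [hs]
        simp only
        have g1 := nodes_sep (a := a) (K := nK m E) hh hσ hij
        refine le_trans (le_of_eq ?_) g1
        rw [hK]
      have h2 := Finset.sum_le_sum fun j (_ : j ∈ Finset.univ) => hwt j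
      have ec : (Finset.univ : Finset (Fin (Fintype.card (Fin m) + 1))).card = m + 1 := by
        rw [Finset.card_univ, Fintype.card_fin, Fintype.card_fin]
      rw [Finset.sum_const, ec, nsmul_eq_mul] at h2
      have h3 := mul_le_mul_of_nonneg_left (mul_le_mul_of_nonneg_left h2 himp)
        (by positivity : 0 ≤ b ^ m)
      refine h3.trans (le_of_eq ?_)
      push_cast
      have hC0 : C₁ ≠ 0 := (lt_of_lt_of_le one_pos hC₁).ne'
      simp only [div_pow, one_div, inv_pow]
      field_simp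
    · rw [MeasureTheory.measure_empty, mul_zero]
      exact zero_le
  refine (Finset.sum_le_sum fun q _ => hVq q).trans ?_
  rw [Finset.sum_const, Finset.card_univ, nsmul_eq_mul, ← ENNReal.ofReal_natCast,
    ← ENNReal.ofReal_mul (Nat.cast_nonneg _)]
  refine ENNReal.ofReal_le_ofReal ?_
  rw [← mul_assoc, ← hQ]
  have h1 : 0 ≤ (1 / h) ^ m * θ ^ m / x := by positivity
  have h2 : (1 + Q) * (1 / h) ^ m * θ ^ m / x = (1 + Q) * ((1 / h) ^ m * θ ^ m / x) := by ring
  rw [h2]
  nlinarith only [h1]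

end Pool.BJ
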