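import Pool.Agent.H32.BJ.Cell
import Pool.Agent.H32.BE.Cap

/-!
# Entropy forms: directions and positions given a label with a Jacobian

`W` is the label together with all the side information. Samples with the same `W` are in a common
cell of the body `F W` at the times of the window of `W`, and the Jacobian of the body is at least
`ξ W` somewhere on the window, along each of the lines.
-/

set_option autoImplicit false

namespace Pool.BJ

open Finset MvPolynomial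
open Pool.Agent.H49.Ent Pool.Agent.H32.Dense Pool.STK Pool.KA
open Pool.SH (Ln lpos lsec)
open Pool.GEN (pnt)
open Pool.BE (Bx lsec_eq)

variable {N m E : ℕ}

theorem Ex_add_c {Ω : Type} [Fintype Ω] {p : Ω → ℝ} (hp : IsLaw p) (f : Ω → ℝ) (c : ℝ) :
    Ex p (fun ω => f ω + c) = Ex p f + c := by
  rw [Ex_add, Ex_const hp.sum_one]

/-- The hypotheses on a label: window `[α, α + h]`, cell, Jacobian. -/
structure LabJ (J : ℕ) {Ω : Type} [Fintype Ω] (p : Ω → ℝ) {Γ : Type} (l : Ω → Ln m) (W : Ω → Γ)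
    (F : Γ → Fin N → MvPolynomial (Option (Fin m)) ℝ) (α h ξ : Γ → ℝ) (b θ : ℝ) : Prop where
  win : ∀ ω, 0 < p ω → 0 ≤ α (W ω) ∧ 0 < h (W ω) ∧ α (W ω) + h (W ω) ≤ 1
  box : ∀ ω, 0 < p ω → l ω ∈ Bx m b
  cel : ∀ ω ω', 0 < p ω → 0 < p ω' → W ω = W ω' → ∀ t ∈ Set.Icc (α (W ω)) (α (W ω) + h (W ω)),
    ∀ y : Fin m → ℝ, (∀ k, |y k| ≤ 1 / 2 ^ J) → ∀ a,
      |eval (pnt t fun k => lpos (l ω) t k + y k) (F (W ω) a) -
        eval (pnt t (lpos (l ω') t)) (F (W ω) a)| ≤ θ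
  pos : ∀ ω, 0 < p ω → 0 < ξ (W ω)
  jac : ∀ ω, 0 < p ω → ∃ t ∈ Set.Icc (α (W ω)) (α (W ω) + h (W ω)), ∃ y : Fin m → ℝ,
    (∀ k, |y k| ≤ 1 / 2 ^ J) ∧ ξ (W ω) ≤ JF (F (W ω)) (pnt t fun k => lpos (l ω) t k + y k)

variable {Ω : Type} [Fintype Ω] {p : Ω → ℝ} {Γ : Type} {J : ℕ} {l : Ω → Ln m} {W : Ω → Γ}
  {F : Γ → Fin N → MvPolynomial (Option (Fin m)) ℝ} {α h ξ : Γ → ℝ} {b θ : ℝ}

/-- The centres of the cells. -/
noncomputable def ctr (p : Ω → ℝ) (l : Ω → Ln m) (W : Ω → Γ)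
    (F : Γ → Fin N → MvPolynomial (Option (Fin m)) ℝ) (g : Γ) (a : Fin N) (t : ℝ) : ℝ :=
  open Classical in
  if H : ∃ ω, 0 < p ω ∧ W ω = g then eval (pnt t (lpos (l H.choose) t)) (F g a) else 0

theorem LabJ.mem (H : LabJ J p l W F α h ξ b θ) {ω : Ω} (hω : 0 < p ω) :
    l ω ∈ LC J (F (W ω)) (ctr p l W F (W ω)) (Set.Icc (α (W ω)) (α (W ω) + h (W ω))) b θ
      (ξ (W ω)) := by
  refine ⟨H.box ω hω, ?_, H.jac ω hω⟩
  intro t ht y hy a
  have hex : ∃ ω', 0 < p ω' ∧ W ω' = W ω := ⟨ω, hω, rfl⟩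
  unfold ctr
  rw [dif_pos hex]
  exact H.cel ω hex.choose hω hex.choose_spec.1 hex.choose_spec.2.symm t ht y hy a

/-- **(FIN, entropy form)** The directions given a label. -/
theorem ch_dirJ (m N E : ℕ) : ∃ C : ℝ, 0 ≤ C ∧ ∀ (Ω : Type) [Fintype Ω] (p : Ω → ℝ),
    IsLaw p → ∀ (J : ℕ) (Γ : Type) (l : Ω → Ln m) (W : Ω → Γ)
    (F : Γ → Fin N → MvPolynomial (Option (Fin m)) ℝ), (∀ g a, (F g a).totalDegree ≤ E) →
    ∀ (α h ξ : Γ → ℝ) (b θ : ℝ), 0 ≤ b → 1 ≤ θ → LabJ J p l W F α h ξ b θ →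
    CH p (fun ω => fl J (l ω).2) W ≤ m * (J * Real.log 2) +
      Ex p (fun ω => -Real.log (ξ (W ω)) + m * -Real.log (h (W ω))) + m * Real.log θ + C := by
  classical
  obtain ⟨C, hC, hcell⟩ := cell_dir m N E
  refine ⟨Real.log C, Real.log_nonneg hC, ?_⟩
  intro Ω _ p hp J Γ l W F hF α h ξ b θ hb hθ H
  have hθ0 : 0 < θ := by linarith
  obtain ⟨S, hS⟩ : ∃ S : Γ → Finset (Fin m → ℤ), ∀ ω, 0 < p ω →
      (S (W ω) : Set (Fin m → ℤ)) = fl J '' ((fun l : Ln m => l.2) '' LC J (F (W ω))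
        (ctr p l W F (W ω)) (Set.Icc (α (W ω)) (α (W ω) + h (W ω))) b θ (ξ (W ω))) := by
    refine ⟨fun g => if hg : (0 ≤ α g ∧ 0 < h g ∧ α g + h g ≤ 1) ∧ 0 < ξ g then
      (hcell J (F g) (hF g) (ctr p l W F g) (α g) (h g) b θ (ξ g) hg.1.1 hg.1.2.1 hg.1.2.2 hb hθ0
        hg.2).1.toFinset else ∅, ?_⟩
    intro ω hω
    beta_reduce
    rw [dif_pos ⟨H.win ω hω, H.pos ω hω⟩, Set.Finite.coe_toFinset]
  refine (CH_le_card hp.nonneg hp.sum_one _ W S fun ω hω => ?_).trans ?_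
  · rw [← Finset.mem_coe, hS ω hω]
    exact ⟨(l ω).2, ⟨l ω, H.mem hω, rfl⟩, rfl⟩
  · have e : m * (J * Real.log 2) +
        Ex p (fun ω => -Real.log (ξ (W ω)) + m * -Real.log (h (W ω))) + m * Real.log θ +
          Real.log C = Ex p (fun ω => (-Real.log (ξ (W ω)) + m * -Real.log (h (W ω))) +
          (m * (J * Real.log 2) + m * Real.log θ + Real.log C)) := by
      rw [Ex_add_c hp (fun ω => -Real.log (ξ (W ω)) + m * -Real.log (h (W ω)))]
      ring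
    rw [e]
    refine Ex_mono hp.nonneg fun ω hω => ?_
    obtain ⟨h1, h2, h3⟩ := H.win ω hω
    have h4 := H.pos ω hω
    have h5 := (hcell J (F (W ω)) (hF _) (ctr p l W F (W ω)) (α (W ω)) (h (W ω)) b θ (ξ (W ω))
      h1 h2 h3 hb hθ0 h4).2
    rw [← hS ω hω, Set.ncard_coe_finset] at h5
    have hne : 0 < (S (W ω)).card := by
      refine Finset.card_pos.2 ⟨fl J (l ω).2, ?_⟩
      rw [← Finset.mem_coe, hS ω hω]
      exact ⟨(l ω).2, ⟨l ω, H.mem hω, rfl⟩, rfl⟩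
    have h6 := Real.log_le_log (by exact_mod_cast hne) h5
    refine h6.trans (le_of_eq ?_)
    have hC0 : 0 < C := by linarith
    rw [Real.log_mul (by positivity) (by positivity), Real.log_div (by positivity) h4.ne',
      Real.log_mul (by positivity) (by positivity), Real.log_mul hC0.ne' (by positivity),
      Real.log_pow, Real.log_pow, Real.log_pow, Real.log_pow, one_div, Real.log_inv]
    ring

/-- **(PKR, entropy form)** The positions at a time `τ W` at distance at most `r W` from the start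
of the window, given a label. -/
theorem ch_secJ (m N E : ℕ) : ∃ C : ℝ, 0 ≤ C ∧ ∀ (Ω : Type) [Fintype Ω] (p : Ω → ℝ),
    IsLaw p → ∀ (J : ℕ) (Γ : Type) (l : Ω → Ln m) (W : Ω → Γ)
    (F : Γ → Fin N → MvPolynomial (Option (Fin m)) ℝ), (∀ g a, (F g a).totalDegree ≤ E) →
    ∀ (α h ξ : Γ → ℝ) (b θ : ℝ), 0 ≤ b → 1 ≤ θ → LabJ J p l W F α h ξ b θ →
    ∀ (τ r : Γ → ℝ), (∀ ω, 0 < p ω → h (W ω) ≤ r (W ω) ∧ |τ (W ω) - α (W ω)| ≤ r (W ω)) →
    CH p (fun ω => fl J (lpos (l ω) (τ (W ω)))) W ≤ m * (J * Real.log 2) +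
      Ex p (fun ω => -Real.log (ξ (W ω)) + m * Real.log (r (W ω) / h (W ω))) +
        m * Real.log θ + C := by
  classical
  obtain ⟨C, hC, hcell⟩ := cell_sec m N E
  refine ⟨Real.log C, Real.log_nonneg hC, ?_⟩
  intro Ω _ p hp J Γ l W F hF α h ξ b θ hb hθ H τ r hτ
  have hθ0 : 0 < θ := by linarith
  obtain ⟨S, hS⟩ : ∃ S : Γ → Finset (Fin m → ℤ), ∀ ω, 0 < p ω →
      (S (W ω) : Set (Fin m → ℤ)) = lsec J (τ (W ω)) (LC J (F (W ω))
        (ctr p l W F (W ω)) (Set.Icc (α (W ω)) (α (W ω) + h (W ω))) b θ (ξ (W ω))) := by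
    refine ⟨fun g => if hg : (0 < h g ∧ h g ≤ r g ∧ |τ g - α g| ≤ r g) ∧ 0 < ξ g then
      (hcell J (F g) (hF g) (ctr p l W F g) (α g) (h g) (r g) (τ g) b θ (ξ g) hg.1.1 hg.1.2.1
        hg.1.2.2 hb hθ0 hg.2).1.toFinset else ∅, ?_⟩
    intro ω hω
    beta_reduce
    rw [dif_pos ⟨⟨(H.win ω hω).2.1, hτ ω hω⟩, H.pos ω hω⟩, Set.Finite.coe_toFinset]
  have hmem : ∀ ω, 0 < p ω → fl J (lpos (l ω) (τ (W ω))) ∈ S (W ω) := by
    intro ω hω
    rw [← Finset.mem_coe, hS ω hω, lsec_eq]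
    exact ⟨lpos (l ω) (τ (W ω)), ⟨l ω, H.mem hω, rfl⟩, rfl⟩
  refine (CH_le_card hp.nonneg hp.sum_one _ W S fun ω hω => hmem ω hω).trans ?_
  have e : m * (J * Real.log 2) +
      Ex p (fun ω => -Real.log (ξ (W ω)) + m * Real.log (r (W ω) / h (W ω))) + m * Real.log θ +
        Real.log C = Ex p (fun ω => (-Real.log (ξ (W ω)) + m * Real.log (r (W ω) / h (W ω))) +
        (m * (J * Real.log 2) + m * Real.log θ + Real.log C)) := by
    rw [Ex_add_c hp (fun ω => -Real.log (ξ (W ω)) + m * Real.log (r (W ω) / h (W ω)))]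
    ring
  rw [e]
  refine Ex_mono hp.nonneg fun ω hω => ?_
  obtain ⟨h1, h2, h3⟩ := H.win ω hω
  obtain ⟨h7, h8⟩ := hτ ω hω
  have h4 := H.pos ω hω
  have h5 := (hcell J (F (W ω)) (hF _) (ctr p l W F (W ω)) (α (W ω)) (h (W ω)) (r (W ω))
    (τ (W ω)) b θ (ξ (W ω)) h2 h7 h8 hb hθ0 h4).2
  rw [← hS ω hω, Set.ncard_coe_finset] at h5
  have hne : 0 < (S (W ω)).card := Finset.card_pos.2 ⟨_, hmem ω hω⟩
  have h6 := Real.log_le_log (by exact_mod_cast hne) h5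
  refine h6.trans (le_of_eq ?_)
  have hC0 : 0 < C := by linarith
  have hr0 : 0 < r (W ω) / h (W ω) := div_pos (h2.trans_le h7) h2
  rw [Real.log_mul (by positivity) (by positivity), Real.log_div (by positivity) h4.ne',
    Real.log_mul (by positivity) (by positivity), Real.log_mul hC0.ne' (by positivity),
    Real.log_pow, Real.log_pow, Real.log_pow, Real.log_pow]
  ring

end Pool.BJ
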