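import Pool.Agent.H32.BJ.Def
import Pool.Agent.H32.KR.N1

/-!
# Good nodes of a polynomial, and the substitutions
-/

set_option autoImplicit false

namespace Pool.BJ

open Finset MvPolynomial
open Pool.SH (Ln lpos)
open Pool.GEN (pnt sbs eval_sbs deg_sbs)
open Pool.BE (Bx)
open Pool.Agent.H50.PW (jac totalDegree_pderiv_le)

variable {N N' m E : ℕ}

/-- The nodes. -/
noncomputable def nd (K : ℕ) (i : Fin K) : ℝ := ((i : ℕ) : ℝ) / K

theorem nd_inj (K : ℕ) : Function.Injective (nd K) := by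
  intro i j h
  have hK : (0 : ℝ) < K := by
    have := i.pos
    exact_mod_cast this
  unfold nd at h
  rw [div_left_inj' hK.ne'] at h
  exact Fin.ext (by exact_mod_cast h)

theorem nd_mem (K : ℕ) (i : Fin K) : nd K i ∈ Set.Icc (0 : ℝ) 1 := by
  have hK : (0 : ℝ) < K := by
    have := i.pos
    exact_mod_cast this
  unfold nd
  refine ⟨by positivity, ?_⟩
  rw [div_le_one hK]
  have := i.2.le
  exact_mod_cast this

/-- The values at `D + 1` nodes bound a polynomial of degree `D`. -/
theorem lag_nodes (D K : ℕ) : ∃ C : ℝ, 1 ≤ C ∧ ∀ (q : Polynomial ℝ), q.natDegree ≤ D →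
    ∀ s : Finset (Fin K), s.card = D + 1 → ∀ S : ℝ, (∀ i ∈ s, |q.eval (nd K i)| ≤ S) →
    ∀ t ∈ Set.Icc (0 : ℝ) 1, |q.eval t| ≤ C * S := by
  classical
  have hM : ∀ s : Finset (Fin K), ∀ i, ∃ M : ℝ, 0 ≤ M ∧ ∀ t ∈ Set.Icc (0 : ℝ) 1,
      |(Lagrange.basis s (nd K) i).eval t| ≤ M := by
    intro s i
    obtain ⟨M, hM⟩ := (isCompact_Icc (a := (0 : ℝ)) (b := 1)).exists_bound_of_continuousOn
      ((Lagrange.basis s (nd K) i).continuous.continuousOn)
    exact ⟨max M 0, le_max_right _ _, fun t ht => (hM t ht).trans (le_max_left _ _)⟩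
  choose M hM0 hM1 using hM
  refine ⟨1 + ∑ s : Finset (Fin K), ∑ i, M s i, ?_, ?_⟩
  · have := Finset.sum_nonneg (s := (Finset.univ : Finset (Finset (Fin K)))) fun s _ =>
      Finset.sum_nonneg (s := (Finset.univ : Finset (Fin K))) fun i _ => hM0 s i
    linarith
  intro q hq s hs S hS t ht
  have hne : s.Nonempty := by
    rw [← Finset.card_pos, hs]
    exact Nat.succ_pos D
  obtain ⟨i₀, hi₀⟩ := hne
  have hS0 : 0 ≤ S := le_trans (abs_nonneg _) (hS i₀ hi₀)
  have h1 : q = Lagrange.interpolate s (nd K) fun i => q.eval (nd K i) := by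
    refine Lagrange.eq_interpolate (nd_inj K).injOn ?_
    rw [hs]
    refine lt_of_le_of_lt (Polynomial.degree_le_natDegree) ?_
    exact_mod_cast Nat.lt_succ_of_le hq
  have h2 : q.eval t = ∑ i ∈ s, q.eval (nd K i) * (Lagrange.basis s (nd K) i).eval t := by
    conv_lhs => rw [h1]
    rw [Lagrange.interpolate_apply, Polynomial.eval_finsetSum]
    refine Finset.sum_congr rfl fun i _ => ?_
    rw [Polynomial.eval_mul, Polynomial.eval_C]
  rw [h2]
  refine le_trans (Finset.abs_sum_le_sum_abs _ _) ?_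
  have h3 : ∑ i ∈ s, |q.eval (nd K i) * (Lagrange.basis s (nd K) i).eval t| ≤
      ∑ i ∈ s, M s i * S := by
    refine Finset.sum_le_sum fun i hi => ?_
    rw [abs_mul, mul_comm]
    exact mul_le_mul (hM1 s i t ht) (hS i hi) (abs_nonneg _) (hM0 s i)
  refine h3.trans ?_
  rw [← Finset.sum_mul]
  have h4 : ∑ i ∈ s, M s i ≤ ∑ i, M s i :=
    Finset.sum_le_sum_of_subset_of_nonneg (Finset.subset_univ s) fun i _ _ => hM0 s i
  have h5 : ∑ i, M s i ≤ ∑ s : Finset (Fin K), ∑ i, M s i :=
    Finset.single_le_sum (f := fun s => ∑ i, M s i)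
      (fun s _ => Finset.sum_nonneg fun i _ => hM0 s i) (Finset.mem_univ s)
  have h6 : ∑ i ∈ s, M s i ≤ 1 + ∑ s : Finset (Fin K), ∑ i, M s i := by linarith
  exact mul_le_mul_of_nonneg_right h6 hS0

/-- **Good nodes.** A polynomial of degree `D` which is large at a point is large at `n` of the
`D + n` nodes. -/
theorem good_nodes (D n : ℕ) : ∃ C : ℝ, 1 ≤ C ∧ ∀ (q : Polynomial ℝ), q.natDegree ≤ D →
    ∀ t ∈ Set.Icc (0 : ℝ) 1, ∀ x : ℝ, 0 < x → x ≤ |q.eval t| →
    ∃ σ : Fin n → Fin (D + n), Function.Injective σ ∧ ∀ j, x / C ≤ |q.eval (nd (D + n) (σ j))| := by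
  classical
  obtain ⟨C, hC, h⟩ := lag_nodes D (D + n)
  refine ⟨2 * C, by linarith, ?_⟩
  intro q hq t ht x hx hxt
  obtain ⟨bad, hbad⟩ : ∃ bad : Finset (Fin (D + n)), bad =
      Finset.univ.filter fun i => |q.eval (nd (D + n) i)| < x / (2 * C) := ⟨_, rfl⟩
  have h1 : bad.card ≤ D := by
    by_contra hcon
    push Not at hcon
    obtain ⟨s, hs, hs1⟩ := Finset.exists_subset_card_eq (Nat.succ_le_of_lt hcon)
    have h2 := h q hq s hs1 (x / (2 * C)) (fun i hi => by
      have := hs hi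
      rw [hbad, Finset.mem_filter] at this
      exact this.2.le) t ht
    have h3 : C * (x / (2 * C)) = x / 2 := by
      field_simp
    rw [h3] at h2
    linarith
  have h2 : n ≤ (badᶜ).card := by
    rw [Finset.card_compl, Fintype.card_fin]
    omega
  obtain ⟨s, hs, hs1⟩ := Finset.exists_subset_card_eq h2
  refine ⟨fun j => s.orderEmbOfFin hs1 j, (s.orderEmbOfFin hs1).injective, fun j => ?_⟩
  have h3 : s.orderEmbOfFin hs1 j ∈ badᶜ := hs (Finset.orderEmbOfFin_mem s hs1 j)
  rw [Finset.mem_compl, hbad, Finset.mem_filter] at h3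
  push Not at h3
  exact h3 (Finset.mem_univ _)

/-- The chain rule for the substitution. -/
theorem pderiv_sbs (τ ρ : ℝ) (a : Fin m → ℝ) (P : MvPolynomial (Option (Fin m)) ℝ) (j : Fin m) :
    pderiv j (bind₁ (sbs τ ρ a) P) = C ρ * bind₁ (sbs τ ρ a) (pderiv (some j) P) := by
  classical
  induction P using MvPolynomial.induction_on with
  | C c => simp
  | add p q hp hq =>
    rw [map_add, map_add, hp, hq, map_add, map_add]
    ring
  | mul_X p o hp =>
    rw [map_mul, bind₁_X_right, pderiv_mul, hp, pderiv_mul, map_add, map_mul, map_mul,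
      bind₁_X_right]
    have h1 : pderiv j (sbs τ ρ a o) = C ρ * bind₁ (sbs τ ρ a) (pderiv (some j) (X o)) := by
      cases o with
      | none =>
        rw [pderiv_X_of_ne (by simp), map_zero, mul_zero]
        simp [sbs]
      | some k =>
        simp only [sbs, map_add, pderiv_C, zero_add, pderiv_C_mul]
        by_cases hk : k = j
        · subst hk
          rw [pderiv_X_self, pderiv_X_self, map_one]
        · rw [pderiv_X_of_ne hk, pderiv_X_of_ne (by simpa using hk), map_zero]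
    rw [h1]
    ring

/-- The polynomial of the minor. -/
noncomputable def mq (F : Fin N → MvPolynomial (Option (Fin m)) ℝ) (S : Fin m → Fin N) :
    MvPolynomial (Option (Fin m)) ℝ :=
  (Matrix.of fun i j => pderiv (some j) (F (S i)) :
    Matrix (Fin m) (Fin m) (MvPolynomial (Option (Fin m)) ℝ)).det

theorem eval_mq (F : Fin N → MvPolynomial (Option (Fin m)) ℝ) (S : Fin m → Fin N)
    (b : Option (Fin m) → ℝ) : eval b (mq F S) = mnr (dM F b) S := by
  unfold mq mnr dM
  rw [RingHom.map_det]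
  congr 1

theorem deg_mq (F : Fin N → MvPolynomial (Option (Fin m)) ℝ) (S : Fin m → Fin N)
    (hF : ∀ a, (F a).totalDegree ≤ E) : (mq F S).totalDegree ≤ m * E := by
  classical
  unfold mq
  rw [Matrix.det_apply]
  refine (totalDegree_finsetSum _ _).trans (Finset.sup_le fun π _ => ?_)
  rw [Units.smul_def, zsmul_eq_mul]
  refine (totalDegree_mul _ _).trans ?_
  have h1 : ((((Equiv.Perm.sign π : ℤˣ) : ℤ) : MvPolynomial (Option (Fin m)) ℝ)).totalDegree = 0 := by
    rw [← map_intCast (C : ℝ →+* MvPolynomial (Option (Fin m)) ℝ), totalDegree_C]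
  rw [h1, zero_add]
  refine (totalDegree_finsetProd _ _).trans ?_
  refine (Finset.sum_le_sum fun i _ => ?_ : _ ≤ ∑ _i : Fin m, E).trans (le_of_eq ?_)
  · simp only [Matrix.of_apply]
    exact (totalDegree_pderiv_le _ _).trans (hF _)
  · rw [Finset.sum_const, Finset.card_univ, Fintype.card_fin, smul_eq_mul]

end Pool.BJ
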