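import Pool.Agent.H32.BJ.Imp
import Pool.Agent.H32.BJ.Nod
import Pool.Agent.H32.BE.KRS

/-!
# Directions and sections of the lines with a large Jacobian
-/

set_option autoImplicit false

namespace Pool.BJ

open Finset MvPolynomial
open Pool.Agent.H49.Ent Pool.Agent.H32.Dense Pool.STK Pool.KA
open Pool.SH (Ln lpos lsec)
open Pool.GEN (pnt sbs eval_sbs deg_sbs lagm)
open Pool.BE (Bx)
open Pool.Agent.H50.PW (jac totalDegree_pderiv_le wt wz wt_nonneg wz_nonneg impC impC_nonneg
  card_mul_le_volume totalDegree_bind₁_le)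

variable {N m E : ℕ}

/-- The number of the nodes. -/
abbrev nK (m E : ℕ) : ℕ := m * E + (Fintype.card (Fin m) + 1)

/-- A minor which is large at some time of a window, along a line, is large at `m + 1` of the
nodes. -/
theorem line_nodes (m E : ℕ) : ∃ C : ℝ, 1 ≤ C ∧ ∀ (N : ℕ)
    (F : Fin N → MvPolynomial (Option (Fin m)) ℝ), (∀ a, (F a).totalDegree ≤ E) →
    ∀ (S : Fin m → Fin N) (U D : Fin m → ℝ) (a h t₀ x : ℝ), 0 < h → t₀ ∈ Set.Icc a (a + h) →
    0 < x → x ≤ |mnr (dM F (pnt t₀ fun k => U k + t₀ * D k)) S| →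
    ∃ σ : Fin (Fintype.card (Fin m) + 1) → Fin (nK m E), Function.Injective σ ∧ ∀ j,
      x / C ≤ |mnr (dM F (pnt (a + h * nd (nK m E) (σ j))
        fun k => U k + (a + h * nd (nK m E) (σ j)) * D k)) S| := by
  obtain ⟨C, hC, hnod⟩ := good_nodes (m * E) (Fintype.card (Fin m) + 1)
  refine ⟨C, hC, ?_⟩
  intro N F hF S U D a h t₀ x hh ht₀ hx hxt
  obtain ⟨g, hg⟩ : ∃ g : Option (Fin m) → Polynomial ℝ, g = fun o => o.elim
    (Polynomial.C a + Polynomial.C h * Polynomial.X) fun k => Polynomial.C (U k) +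
      Polynomial.C (D k) * (Polynomial.C a + Polynomial.C h * Polynomial.X) := ⟨_, rfl⟩
  obtain ⟨q, hq⟩ : ∃ q : Polynomial ℝ, q = aeval g (mq F S) := ⟨_, rfl⟩
  have h0 : (Polynomial.C a + Polynomial.C h * Polynomial.X : Polynomial ℝ).natDegree ≤ 1 := by
    refine (Polynomial.natDegree_add_le _ _).trans (max_le ?_ ?_)
    · rw [Polynomial.natDegree_C]
      exact Nat.zero_le _
    · exact (Polynomial.natDegree_C_mul_le _ _).trans Polynomial.natDegree_X_le
  have hgd : ∀ o, (g o).natDegree ≤ 1 := by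
    intro o
    rw [hg]
    cases o with
    | none => exact h0
    | some k =>
      simp only [Option.elim]
      refine (Polynomial.natDegree_add_le _ _).trans (max_le ?_ ?_)
      · rw [Polynomial.natDegree_C]
        exact Nat.zero_le _
      · exact (Polynomial.natDegree_C_mul_le _ _).trans h0
  have hqd : q.natDegree ≤ m * E := by
    rw [hq]
    exact Pool.KBX.natDegree_aeval_le _ _ hgd (deg_mq F S hF)
  have hqe : ∀ s : ℝ, q.eval s = mnr (dM F (pnt (a + h * s) fun k => U k + (a + h * s) * D k)) S := by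
    intro s
    rw [hq, ← eval_mq, ← Polynomial.coe_evalRingHom, ← RingHom.coe_coe (aeval g), ← RingHom.comp_apply]
    have e1 : ((Polynomial.evalRingHom s).comp (↑(aeval g : MvPolynomial (Option (Fin m)) ℝ →ₐ[ℝ]
        Polynomial ℝ) : MvPolynomial (Option (Fin m)) ℝ →+* Polynomial ℝ)) =
        (eval (pnt (a + h * s) fun k => U k + (a + h * s) * D k) :
          MvPolynomial (Option (Fin m)) ℝ →+* ℝ) := by
      refine MvPolynomial.ringHom_ext (fun r => ?_) (fun o => ?_)
      · simp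
      · rw [RingHom.comp_apply, RingHom.coe_coe, aeval_X, eval_X, hg]
        cases o with
        | none => simp [pnt]
        | some k =>
          simp [pnt]
          ring
    rw [e1]
  obtain ⟨s₀, hs₀⟩ : ∃ s₀ : ℝ, s₀ = (t₀ - a) / h := ⟨_, rfl⟩
  have hs₁ : a + h * s₀ = t₀ := by
    rw [hs₀]
    field_simp
    ring
  have hs₂ : s₀ ∈ Set.Icc (0 : ℝ) 1 := by
    rw [hs₀]
    refine ⟨div_nonneg (by linarith [ht₀.1]) hh.le, ?_⟩
    rw [div_le_one hh]
    linarith [ht₀.2]
  obtain ⟨σ, hσ, hσ2⟩ := hnod q hqd s₀ hs₂ x hx (by rw [hqe, hs₁]; exact hxt)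
  exact ⟨σ, hσ, fun j => by rw [← hqe]; exact hσ2 j⟩

/-- The equations of a class at a time, after a dilation. -/
noncomputable def eqn (F : Fin N → MvPolynomial (Option (Fin m)) ℝ) (S : Fin m → Fin N)
    (t : ℝ) (R : ℝ) (c : Fin N → ℝ) (k : Fin m) : MvPolynomial (Fin m) ℝ :=
  bind₁ (sbs t R 0) (F (S k)) - C (c (S k))

theorem eval_eqn (F : Fin N → MvPolynomial (Option (Fin m)) ℝ) (S : Fin m → Fin N)
    (t R : ℝ) (c : Fin N → ℝ) (k : Fin m) (y : Fin m → ℝ) :
    eval y (eqn F S t R c k) = eval (pnt t fun i => R * y i) (F (S k)) - c (S k) := by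
  unfold eqn
  rw [map_sub, eval_sbs, eval_C]
  simp only [Pi.zero_apply, zero_add]

theorem deg_eqn (F : Fin N → MvPolynomial (Option (Fin m)) ℝ) (hF : ∀ a, (F a).totalDegree ≤ E)
    (S : Fin m → Fin N) (t R : ℝ) (c : Fin N → ℝ) (k : Fin m) :
    (eqn F S t R c k).totalDegree ≤ E := by
  unfold eqn
  refine (totalDegree_sub _ _).trans (max_le ?_ ?_)
  · exact (totalDegree_bind₁_le _ (deg_sbs _ _ _) _).trans (hF _)
  · rw [totalDegree_C]
    exact Nat.zero_le _

theorem jac_eqn (F : Fin N → MvPolynomial (Option (Fin m)) ℝ) (S : Fin m → Fin N)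
    (t R : ℝ) (c : Fin N → ℝ) (y : Fin m → ℝ) :
    (jac (eqn F S t R c) y).det = R ^ m * mnr (dM F (pnt t fun i => R * y i)) S := by
  have h1 : jac (eqn F S t R c) y = R • (Matrix.of fun i j => dM F (pnt t fun i => R * y i) (S i) j :
      Matrix (Fin m) (Fin m) ℝ) := by
    ext i j
    simp only [jac, eqn, Matrix.of_apply, Matrix.smul_apply, smul_eq_mul, dM]
    rw [map_sub, pderiv_C, sub_zero, pderiv_sbs, map_mul, eval_C, eval_sbs]
    simp only [Pi.zero_apply, zero_add]
  rw [h1, Matrix.det_smul, Fintype.card_fin]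
  rfl

end Pool.BJ
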