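import Pool.Agent.H50.PW.Implicit

/-!
# Implicit germs: the volume of the set of the directions, and of the positions

The same as `card_implicit_le` and `card_implicit_slice_le`, for volumes.
-/

set_option autoImplicit false
set_option linter.unusedSectionVars false

namespace Pool.BJ

open MeasureTheory MvPolynomial
open Pool.Agent.H50.PW

variable {μ : Type*} [Fintype μ] [DecidableEq μ]

/-- The directions of the lines with `|F j k| ≤ θ j k` and Jacobian determinant at least `G j` at
the times `t j`. -/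
theorem vol_imp_dir {d : ℕ} (hd : 1 ≤ d) (R : ℝ)
    (F : Fin (Fintype.card μ + 1) → μ → MvPolynomial μ ℝ)
    (hF : ∀ j k, (F j k).totalDegree ≤ d)
    (θ : Fin (Fintype.card μ + 1) → μ → ℝ) (hθ : ∀ j k, 0 < θ j k)
    (G : Fin (Fintype.card μ + 1) → ℝ) (hG : ∀ j, 0 < G j)
    (t : Fin (Fintype.card μ + 1) → ℝ) (ht : Function.Injective t) :
    volume {D : μ → ℝ | ‖D‖ ≤ R ∧ ∃ U : μ → ℝ, ‖U‖ ≤ 1 ∧ ∀ j,
      (∀ k, |eval (fun i => U i + t j * D i) (F j k)| ≤ θ j k) ∧
        G j ≤ |(jac (F j) (fun i => U i + t j * D i)).det|} ≤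
      ENNReal.ofReal (impC (Fintype.card μ) d * ∑ j, wt t j * (∏ k, θ j k) / G j) := by
  classical
  set L : Fin (Fintype.card μ + 1) → μ → MvPolynomial (μ ⊕ (μ ⊕ Fin (Fintype.card μ + 1))) ℝ :=
    fun j k => X (Sum.inr (Sum.inl k)) + C (t j) * X (Sum.inl k) with hLdef
  have hLdeg : ∀ j k, (L j k).totalDegree ≤ 1 := by
    intro j k
    refine (totalDegree_add _ _).trans (max_le ?_ ?_)
    · simp only [totalDegree_X, le_refl]
    · refine (totalDegree_mul _ _).trans ?_
      simp only [totalDegree_C, totalDegree_X, zero_add, le_refl]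
  have hcard : Fintype.card (μ ⊕ Fin (Fintype.card μ + 1)) = Fintype.card μ + (Fintype.card μ + 1) := by
    rw [Fintype.card_sum, Fintype.card_fin]
  set K : ℝ := 4 * (Fintype.card (μ ⊕ Fin (Fintype.card μ + 1)) : ℝ) + 1 with hK
  have hK1 : 1 ≤ K := by
    have : (0 : ℝ) ≤ (Fintype.card (μ ⊕ Fin (Fintype.card μ + 1)) : ℝ) := Nat.cast_nonneg _
    linarith
  set T : ℝ := (((Fintype.card μ + 1) * Fintype.card μ + 1 : ℕ) : ℝ) with hT
  have hT1 : 1 ≤ T := by
    rw [hT]; exact_mod_cast Nat.succ_le_succ (Nat.zero_le _)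
  set M : ℝ := 2 * (Fintype.card (μ ⊕ Fin (Fintype.card μ + 1)) : ℝ) + 2 with hM
  have hM0 : 0 < M := by
    have : (0 : ℝ) ≤ (Fintype.card (μ ⊕ Fin (Fintype.card μ + 1)) : ℝ) := Nat.cast_nonneg _
    linarith
  set P := impP L (fun j => (Sum.inr j : μ ⊕ Fin (Fintype.card μ + 1))) F θ G T⁻¹ (4 * K) with hP
  have hPe : ∀ (D : μ → ℝ) (A : μ ⊕ Fin (Fintype.card μ + 1) → ℝ) (j : Fin (Fintype.card μ + 1)),
      (fun i => eval (Sum.elim D A) (L j i)) = fun i => A (Sum.inl i) + t j * D i := by
    intro D A j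
    funext i
    simp [hLdef]
  set d' : ℕ := 2 * ((Fintype.card μ + 1) * d + 1) with hd'
  have hmain := volume_directions_le (d := d') (by omega) P
    (totalDegree_impP_le hd L _ F θ G _ _ hLdeg hF)
    (impP_nonneg L _ F θ G (by positivity) (by positivity))
    (fun k => (X (Sum.inl k) : MvPolynomial (μ ⊕ Fin (Fintype.card μ + 1)) ℝ))
    (fun k => by rw [totalDegree_X]; omega) t ht (Metric.closedBall 0 R)
    Metric.isClosed_closedBall.measurableSet
  have hsw := sum_volume_le F hF θ hθ G hG (wt t) (wt_nonneg t)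
    (fun j => swept P (fun k => (X (Sum.inl k) : MvPolynomial (μ ⊕ Fin (Fintype.card μ + 1)) ℝ))
      (Metric.closedBall 0 R) (t j)) (κ := K * T) (M := M) (by positivity) hM0
    ((d' + 1) ^ (Fintype.card μ + Fintype.card (μ ⊕ Fin (Fintype.card μ + 1)))) (by
      rintro j x ⟨D, hD, A, hA, hPA, hx⟩
      have hx' : x = fun i => A (Sum.inl i) + t j * D i := by
        funext i
        rw [hx i, eval_X]
      have h1 := of_impP_le L (fun j => (Sum.inr j : μ ⊕ Fin (Fintype.card μ + 1))) F θ hθ G hG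
        (τ := T⁻¹) (Λ := 4 * K) (K := K) (M := M) (by positivity) rfl hK1
        (by rw [div_inv_eq_mul]; nlinarith) (Sum.elim D A) hM0
        (fun j => by
          simp only [Sum.elim_inr]
          exact (norm_le_pi_norm A _).trans hA) hPA j
      rw [hPe, ← hx', div_inv_eq_mul] at h1
      exact h1)
  refine (measure_mono ?_).trans ((hmain.trans hsw).trans (le_of_eq ?_))
  · rintro D ⟨h1, U, hU, hU2⟩
    refine ⟨?_, Sum.elim U (fun j => G j / (jac (F j) (fun i => U i + t j * D i)).det), ?_, ?_⟩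
    · rw [mem_closedBall_zero_iff]; exact h1
    · rw [pi_norm_le_iff_of_nonneg zero_le_one]
      rintro (i | j)
      · simp only [Sum.elim_inl]
        exact (norm_le_pi_norm U i).trans hU
      · simp only [Sum.elim_inr]
        have h2 := (hU2 j).2
        have h3 : 0 < |(jac (F j) (fun i => U i + t j * D i)).det| := (hG j).trans_le h2
        rw [Real.norm_eq_abs, abs_div, abs_of_pos (hG j), div_le_one h3]
        exact h2
    · refine impP_le_one L _ F θ hθ G (by positivity) ?_ _ ?_ ?_
      · rw [Fintype.card_fin, inv_mul_le_iff₀ (by positivity), mul_one, hT]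
        push_cast
        linarith
      · intro j k
        rw [hPe]
        simp only [Sum.elim_inl]
        exact (hU2 j).1 k
      · intro j
        rw [hPe]
        simp only [Sum.elim_inl, Sum.elim_inr]
        have h2 := (hU2 j).2
        have h3 : 0 < |(jac (F j) (fun i => U i + t j * D i)).det| := (hG j).trans_le h2
        have h4 : (jac (F j) (fun i => U i + t j * D i)).det ≠ 0 := abs_pos.mp h3
        have h5 := (hG j).ne'
        field_simp
  · congr 1
    rw [impC]
    have e1 : K = ((4 * (Fintype.card μ + (Fintype.card μ + 1)) + 1 : ℕ) : ℝ) := by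
      rw [hK, hcard]; push_cast; ring
    have e2 : M = ((2 * (Fintype.card μ + (Fintype.card μ + 1)) + 2 : ℕ) : ℝ) := by
      rw [hM, hcard]; push_cast; ring
    rw [← e1, ← e2, ← hT, hcard]

/-- The positions at a time of the lines with `|F j k| ≤ θ j k` and Jacobian determinant at least
`G j` at the times `s j` after it; the velocities range over the box `V₀ + c [-1, 1]^m`. -/
theorem vol_imp_sec {d : ℕ} (hd : 1 ≤ d) (R : ℝ)
    (F : Fin (Fintype.card μ + 1) → μ → MvPolynomial μ ℝ)
    (hF : ∀ j k, (F j k).totalDegree ≤ d)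
    (θ : Fin (Fintype.card μ + 1) → μ → ℝ) (hθ : ∀ j k, 0 < θ j k)
    (G : Fin (Fintype.card μ + 1) → ℝ) (hG : ∀ j, 0 < G j)
    (s : Fin (Fintype.card μ + 1) → ℝ) (hs : Function.Injective s)
    (V₀ : μ → ℝ) (c : ℝ) :
    volume {y : μ → ℝ | ‖y‖ ≤ R ∧ ∃ A : μ → ℝ, ‖A‖ ≤ 1 ∧ ∀ j,
        (∀ k, |eval (fun i => y i + s j * (V₀ i + c * A i)) (F j k)| ≤ θ j k) ∧
        G j ≤ |(jac (F j) (fun i => y i + s j * (V₀ i + c * A i))).det|} ≤
      ENNReal.ofReal (impC (Fintype.card μ) d * ∑ j, wz s j * (∏ k, θ j k) / G j) := by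
  classical
  set L : Fin (Fintype.card μ + 1) → μ →
      MvPolynomial (μ ⊕ (μ ⊕ Fin (Fintype.card μ + 1))) ℝ :=
    fun j k => X (Sum.inl k) + C (s j) * (C (V₀ k) + C c * X (Sum.inr (Sum.inl k))) with hLdef
  have hLdeg : ∀ j k, (L j k).totalDegree ≤ 1 := by
    intro j k
    refine (totalDegree_add _ _).trans (max_le ?_ ?_)
    · simp only [totalDegree_X, le_refl]
    · refine (totalDegree_mul _ _).trans ?_
      rw [totalDegree_C, zero_add]
      refine (totalDegree_add _ _).trans (max_le ?_ ?_)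
      · simp
      · refine (totalDegree_mul _ _).trans ?_
        simp only [totalDegree_C, totalDegree_X, zero_add, le_refl]
  have hcard : Fintype.card (μ ⊕ Fin (Fintype.card μ + 1)) =
      Fintype.card μ + (Fintype.card μ + 1) := by
    rw [Fintype.card_sum, Fintype.card_fin]
  set K : ℝ := 4 * (Fintype.card (μ ⊕ Fin (Fintype.card μ + 1)) : ℝ) + 1 with hK
  have hK1 : 1 ≤ K := by
    have : (0 : ℝ) ≤ (Fintype.card (μ ⊕ Fin (Fintype.card μ + 1)) : ℝ) := Nat.cast_nonneg _
    linarith
  set T : ℝ := (((Fintype.card μ + 1) * Fintype.card μ + 1 : ℕ) : ℝ) with hT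
  have hT1 : 1 ≤ T := by
    rw [hT]; exact_mod_cast Nat.succ_le_succ (Nat.zero_le _)
  set M : ℝ := 2 * (Fintype.card (μ ⊕ Fin (Fintype.card μ + 1)) : ℝ) + 2 with hM
  have hM0 : 0 < M := by
    have : (0 : ℝ) ≤ (Fintype.card (μ ⊕ Fin (Fintype.card μ + 1)) : ℝ) := Nat.cast_nonneg _
    linarith
  set P := impP L (fun j => (Sum.inr j : μ ⊕ Fin (Fintype.card μ + 1))) F θ G T⁻¹ (4 * K) with hP
  have hPe : ∀ (y : μ → ℝ) (A : μ ⊕ Fin (Fintype.card μ + 1) → ℝ) (j : Fin (Fintype.card μ + 1)),
      (fun i => eval (Sum.elim y A) (L j i)) =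
        fun i => y i + s j * (V₀ i + c * A (Sum.inl i)) := by
    intro y A j
    funext i
    simp [hLdef]
  set d' : ℕ := 2 * ((Fintype.card μ + 1) * d + 1) with hd'
  have hVdeg : ∀ k, ((C (V₀ k) + C c * X (Sum.inl k) :
      MvPolynomial (μ ⊕ Fin (Fintype.card μ + 1)) ℝ)).totalDegree ≤ d' := by
    intro k
    refine (totalDegree_add _ _).trans (max_le ?_ ?_)
    · simp
    · refine (totalDegree_mul _ _).trans ?_
      simp only [totalDegree_C, totalDegree_X, zero_add]
      omega
  have hmain := volume_slice_le (d := d') (by omega) P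
    (totalDegree_impP_le hd L _ F θ G _ _ hLdeg hF)
    (impP_nonneg L _ F θ G (by positivity) (by positivity))
    (fun k => (C (V₀ k) + C c * X (Sum.inl k) : MvPolynomial (μ ⊕ Fin (Fintype.card μ + 1)) ℝ))
    hVdeg s hs (Metric.closedBall 0 R) Metric.isClosed_closedBall.measurableSet
  have hsw := sum_volume_le F hF θ hθ G hG (wz s) (wz_nonneg s)
    (fun j => sweptS P (fun k => (C (V₀ k) + C c * X (Sum.inl k) :
      MvPolynomial (μ ⊕ Fin (Fintype.card μ + 1)) ℝ))
      (Metric.closedBall 0 R) (s j)) (κ := K * T) (M := M) (by positivity) hM0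
    ((d' + 1) ^ (Fintype.card μ + Fintype.card (μ ⊕ Fin (Fintype.card μ + 1)))) (by
      rintro j x ⟨y, hy, A, hA, hPA, hx⟩
      have hx' : x = fun i => y i + s j * (V₀ i + c * A (Sum.inl i)) := by
        funext i
        rw [hx i]
        simp
      have h1 := of_impP_le L (fun j => (Sum.inr j : μ ⊕ Fin (Fintype.card μ + 1))) F θ hθ G hG
        (τ := T⁻¹) (Λ := 4 * K) (K := K) (M := M) (by positivity) rfl hK1
        (by rw [div_inv_eq_mul]; nlinarith) (Sum.elim y A) hM0
        (fun j => by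
          simp only [Sum.elim_inr]
          exact (norm_le_pi_norm A _).trans hA) hPA j
      rw [hPe, ← hx', div_inv_eq_mul] at h1
      exact h1)
  refine (measure_mono ?_).trans ((hmain.trans hsw).trans (le_of_eq ?_))
  · rintro y ⟨h1, U, hU, hU2⟩
    refine ⟨?_, Sum.elim U
      (fun j => G j / (jac (F j) (fun i => y i + s j * (V₀ i + c * U i))).det), ?_, ?_⟩
    · rw [mem_closedBall_zero_iff]; exact h1
    · rw [pi_norm_le_iff_of_nonneg zero_le_one]
      rintro (i | j)
      · simp only [Sum.elim_inl]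
        exact (norm_le_pi_norm U i).trans hU
      · simp only [Sum.elim_inr]
        have h2 := (hU2 j).2
        have h3 : 0 < |(jac (F j) (fun i => y i + s j * (V₀ i + c * U i))).det| :=
          (hG j).trans_le h2
        rw [Real.norm_eq_abs, abs_div, abs_of_pos (hG j), div_le_one h3]
        exact h2
    · refine impP_le_one L _ F θ hθ G (by positivity) ?_ _ ?_ ?_
      · rw [Fintype.card_fin, inv_mul_le_iff₀ (by positivity), mul_one, hT]
        push_cast
        linarith
      · intro j k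
        rw [hPe]
        simp only [Sum.elim_inl]
        exact (hU2 j).1 k
      · intro j
        rw [hPe]
        simp only [Sum.elim_inl, Sum.elim_inr]
        have h2 := (hU2 j).2
        have h3 : 0 < |(jac (F j) (fun i => y i + s j * (V₀ i + c * U i))).det| :=
          (hG j).trans_le h2
        have h4 : (jac (F j) (fun i => y i + s j * (V₀ i + c * U i))).det ≠ 0 := abs_pos.mp h3
        have h5 := (hG j).ne'
        field_simp
  · congr 1
    rw [impC]
    have e1 : K = ((4 * (Fintype.card μ + (Fintype.card μ + 1)) + 1 : ℕ) : ℝ) := by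
      rw [hK, hcard]; push_cast; ring
    have e2 : M = ((2 * (Fintype.card μ + (Fintype.card μ + 1)) + 2 : ℕ) : ℝ) := by
      rw [hM, hcard]; push_cast; ring
    rw [← e1, ← e2, ← hT, hcard]

end Pool.BJ
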