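import Mathlib

/-!
# The largest maximal minor of a matrix
-/

set_option autoImplicit false

namespace Pool.BJ

open Finset

variable {N N' m : ℕ}

/-- The determinant of the rows `S`. -/
noncomputable def mnr (M : Matrix (Fin N) (Fin m) ℝ) (S : Fin m → Fin N) : ℝ :=
  (Matrix.of fun i j => M (S i) j).det

/-- The largest maximal minor. -/
noncomputable def jm (M : Matrix (Fin N) (Fin m) ℝ) : ℝ := ⨆ S : Fin m → Fin N, |mnr M S|

theorem le_jm (M : Matrix (Fin N) (Fin m) ℝ) (S : Fin m → Fin N) : |mnr M S| ≤ jm M :=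
  le_ciSup (f := fun S : Fin m → Fin N => |mnr M S|) (Set.finite_range _).bddAbove S

theorem jm_nonneg (M : Matrix (Fin N) (Fin m) ℝ) : 0 ≤ jm M :=
  Real.iSup_nonneg fun _ => abs_nonneg _

theorem jm_le {M : Matrix (Fin N) (Fin m) ℝ} {c : ℝ} (hc : 0 ≤ c) (h : ∀ S, |mnr M S| ≤ c) :
    jm M ≤ c := Real.iSup_le h hc

theorem exists_jm {M : Matrix (Fin N) (Fin m) ℝ} (h : 0 < jm M) : ∃ S, |mnr M S| = jm M := by
  rcases isEmpty_or_nonempty (Fin m → Fin N) with h0 | h0
  · exfalso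
    have : jm M = 0 := by
      unfold jm
      rw [Real.iSup_of_isEmpty]
    linarith
  · obtain ⟨S, hS⟩ := Finite.exists_max fun S : Fin m → Fin N => |mnr M S|
    exact ⟨S, le_antisymm (le_jm M S) (ciSup_le hS)⟩

/-- The expansion of the determinant of a product. -/
theorem mnr_mul (Q : Matrix (Fin N') (Fin N) ℝ) (M : Matrix (Fin N) (Fin m) ℝ)
    (S : Fin m → Fin N') :
    mnr (Q * M) S = ∑ r : Fin m → Fin N, (∏ i, Q (S i) (r i)) * mnr M r := by
  classical
  have h1 : (Matrix.of fun i j => (Q * M) (S i) j) = fun i => ∑ a, Q (S i) a • M a := by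
    funext i j
    simp only [Matrix.of_apply, Matrix.mul_apply, Finset.sum_apply, Pi.smul_apply, smul_eq_mul]
  unfold mnr
  have h2 : (Matrix.of fun i j => (Q * M) (S i) j).det =
      (Matrix.detRowAlternating (n := Fin m) (R := ℝ)).toMultilinearMap
        (fun i => ∑ a, Q (S i) a • M a) := by
    rw [h1]
    rfl
  rw [h2, MultilinearMap.map_sum]
  refine Finset.sum_congr rfl fun r _ => ?_
  rw [MultilinearMap.map_smul_univ]
  rfl

/-- **(DQ)** The largest minor of a product. -/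
theorem jm_mul_le (Q : Matrix (Fin N') (Fin N) ℝ) (M : Matrix (Fin N) (Fin m) ℝ) {κ : ℝ}
    (hκ : 0 ≤ κ) (hQ : ∀ a b, |Q a b| ≤ κ) : jm (Q * M) ≤ (N * κ) ^ m * jm M := by
  refine jm_le (mul_nonneg (by positivity) (jm_nonneg M)) fun S => ?_
  rw [mnr_mul]
  refine (Finset.abs_sum_le_sum_abs _ _).trans ?_
  have h1 : ∀ r ∈ (Finset.univ : Finset (Fin m → Fin N)),
      |(∏ i, Q (S i) (r i)) * mnr M r| ≤ κ ^ m * jm M := by
    intro r _
    rw [abs_mul, Finset.abs_prod]
    refine mul_le_mul ?_ (le_jm M r) (abs_nonneg _) (by positivity)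
    refine (Finset.prod_le_prod (fun i _ => abs_nonneg _) fun i _ => hQ (S i) (r i)).trans
      (le_of_eq ?_)
    rw [Finset.prod_const, Finset.card_univ, Fintype.card_fin]
  refine (Finset.sum_le_sum h1).trans (le_of_eq ?_)
  rw [Finset.sum_const, Finset.card_univ, Fintype.card_fun, Fintype.card_fin, Fintype.card_fin,
    nsmul_eq_mul]
  push_cast
  rw [mul_pow]
  ring

/-- **(STAB)** Errors. -/
theorem jm_add_le (M E : Matrix (Fin N) (Fin m) ℝ) (A : Matrix (Fin m) (Fin N) ℝ) {κ ε : ℝ}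
    (hκ : 0 ≤ κ) (hε : 0 ≤ ε) (hA : ∀ a b, |A a b| ≤ κ) (hE : ∀ a b, |E a b| ≤ ε)
    (h1 : A * M = 1) : jm (M + E) ≤ (N * (1 + m * ε * κ)) ^ m * jm M := by
  classical
  have h2 : M + E = (1 + E * A) * M := by
    rw [Matrix.add_mul, Matrix.one_mul, Matrix.mul_assoc, h1, Matrix.mul_one]
  rw [h2]
  refine jm_mul_le _ _ (by positivity) fun a b => ?_
  rw [Matrix.add_apply, Matrix.mul_apply]
  refine (abs_add_le _ _).trans (add_le_add ?_ ?_)
  · rw [Matrix.one_apply]
    split_ifs <;> simp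
  · refine (Finset.abs_sum_le_sum_abs _ _).trans ?_
    have h3 : ∀ k ∈ (Finset.univ : Finset (Fin m)), |E a k * A k b| ≤ ε * κ := by
      intro k _
      rw [abs_mul]
      exact mul_le_mul (hE a k) (hA k b) (abs_nonneg _) hε
    refine (Finset.sum_le_sum h3).trans (le_of_eq ?_)
    rw [Finset.sum_const, Finset.card_univ, Fintype.card_fin, nsmul_eq_mul]
    ring

end Pool.BJ
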