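import Pool.Agent.H32.BJ.Fin

/-!
# The volumes of the directions and of the sections of the lines with a large Jacobian

No resolution, no Lipschitz hypothesis: the functions `F a` differ from numbers `c a t` by at most
`θ` along the line, at the times of a window of length `h`, and the Jacobian of the body `F` is at
least `x` at some time of the window.
-/

set_option autoImplicit false

namespace Pool.BJ

open Finset MvPolynomial
open Pool.SH (Ln lpos lsec)
open Pool.GEN (pnt sbs eval_sbs deg_sbs lagm)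
open Pool.BE (Bx)
open Pool.Agent.H50.PW (jac wt wz wt_nonneg wz_nonneg impC impC_nonneg)

variable {N m E : ℕ}

/-- The lines of the class. -/
def LV (F : Fin N → MvPolynomial (Option (Fin m)) ℝ) (c : Fin N → ℝ → ℝ) (I : Set ℝ)
    (b θ x : ℝ) : Set (Ln m) :=
  {l | l ∈ Bx m b ∧ (∀ t ∈ I, ∀ a, |eval (pnt t (lpos l t)) (F a) - c a t| ≤ θ) ∧
    ∃ t ∈ I, x ≤ JF F (pnt t (lpos l t))}

theorem wz_le' {s : Fin (Fintype.card (Fin m) + 1) → ℝ} {h r κ : ℝ} (hh : 0 < h) (hκ : 0 < κ)
    (hr : h ≤ r)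
    (h1 : ∀ i, |s i| ≤ 2 * r) (h2 : ∀ i j, i ≠ j → h / κ ≤ |s i - s j|)
    (i : Fin (Fintype.card (Fin m) + 1)) : wz s i ≤ (2 * κ * (r / h)) ^ m := by
  unfold wz
  rw [Finset.abs_prod]
  have hpos : 0 < h / κ := by positivity
  have h3 : ∀ j ∈ Finset.univ.erase i, |s j / (s i - s j)| ≤ 2 * κ * (r / h) := by
    intro j hj
    have hne : i ≠ j := fun e => (Finset.mem_erase.1 hj).1 e.symm
    have h4 := h2 i j hne
    rw [abs_div, div_le_iff₀ (hpos.trans_le h4)]
    refine (h1 j).trans ?_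
    have e : 2 * r = 2 * κ * (r / h) * (h / κ) := by
      field_simp
    rw [e]
    refine mul_le_mul_of_nonneg_left h4 ?_
    have : 0 ≤ r / h := div_nonneg (hh.le.trans hr) hh.le
    positivity
  refine (Finset.prod_le_prod (fun j _ => abs_nonneg _) h3).trans (le_of_eq ?_)
  rw [Finset.prod_const, Finset.card_erase_of_mem (Finset.mem_univ i), Finset.card_univ,
    Fintype.card_fin, Fintype.card_fin, Nat.add_sub_cancel]

theorem wt_le' {t : Fin (Fintype.card (Fin m) + 1) → ℝ} {h κ : ℝ} (hh : 0 < h) (hκ : 0 < κ)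
    (h2 : ∀ i j, i ≠ j → h / κ ≤ |t i - t j|)
    (i : Fin (Fintype.card (Fin m) + 1)) : wt t i ≤ (κ / h) ^ m := by
  unfold wt
  rw [Finset.abs_prod]
  have hpos : 0 < h / κ := by positivity
  have h3 : ∀ j ∈ Finset.univ.erase i, h / κ ≤ |t i - t j| := by
    intro j hj
    exact h2 i j fun e => (Finset.mem_erase.1 hj).1 e.symm
  have h4 : (h / κ) ^ m ≤ ∏ j ∈ Finset.univ.erase i, |t i - t j| := by
    refine le_trans (le_of_eq ?_) (Finset.prod_le_prod (fun j _ => hpos.le) h3)
    rw [Finset.prod_const, Finset.card_erase_of_mem (Finset.mem_univ i), Finset.card_univ,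
      Fintype.card_fin, Fintype.card_fin, Nat.add_sub_cancel]
  refine (inv_anti₀ (by positivity) h4).trans (le_of_eq ?_)
  rw [← inv_pow, inv_div]

/-- The separation of the nodes. -/
theorem nd_sep {K : ℕ} {i j : Fin K} (h : i ≠ j) : 1 / (K : ℝ) ≤ |nd K i - nd K j| := by
  have hK : (0 : ℝ) < K := by
    have := i.pos
    exact_mod_cast this
  have h5 : nd K i - nd K j = (((i : ℕ) : ℝ) - (j : ℕ)) / K := by
    unfold nd
    ring
  rw [h5, abs_div, abs_of_pos hK]
  refine div_le_div_of_nonneg_right ?_ hK.le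
  have h6 : ((i : ℕ) : ℤ) - (j : ℕ) ≠ 0 := by
    intro e0
    exact h (Fin.ext (by omega))
  have h7 : (1 : ℤ) ≤ |((i : ℕ) : ℤ) - (j : ℕ)| := Int.one_le_abs h6
  exact_mod_cast h7

theorem nodes_sep {K : ℕ} {a h : ℝ} (hh : 0 < h) {n : ℕ} {σ : Fin n → Fin K}
    (hσ : Function.Injective σ) {i j : Fin n} (hij : i ≠ j) :
    h / (K : ℝ) ≤ |(a + h * nd K (σ i)) - (a + h * nd K (σ j))| := by
  have h1 : (a + h * nd K (σ i)) - (a + h * nd K (σ j)) = h * (nd K (σ i) - nd K (σ j)) := by ring
  rw [h1, abs_mul, abs_of_pos hh, div_eq_mul_one_div]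
  exact mul_le_mul_of_nonneg_left (nd_sep fun e => hij (hσ e)) hh.le

/-- **(PKR, volume form)** The positions at a time of the lines of the class. -/
theorem vol_sec (m N E : ℕ) : ∃ C : ℝ, 1 ≤ C ∧ ∀ (F : Fin N → MvPolynomial (Option (Fin m)) ℝ),
    (∀ a, (F a).totalDegree ≤ E) → ∀ (c : Fin N → ℝ → ℝ) (a h r t b θ x : ℝ), 0 < h → h ≤ r →
    |t - a| ≤ r → 0 < θ → 0 < x →
    MeasureTheory.volume ((fun l => lpos l t) '' LV F c (Set.Icc a (a + h)) b θ x) ≤
      ENNReal.ofReal (C * (r / h) ^ m * θ ^ m / x) := by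
  classical
  obtain ⟨C₁, hC₁, hnod⟩ := line_nodes m E
  obtain ⟨K, hK⟩ : ∃ K : ℕ, K = nK m E := ⟨_, rfl⟩
  have hK0 : 0 < K := by rw [hK]; exact Nat.lt_of_lt_of_le (Nat.succ_pos _) (Nat.le_add_left _ _)
  have hKr : (0 : ℝ) < K := by exact_mod_cast hK0
  obtain ⟨n, hn⟩ : ∃ n : ℕ, n = Fintype.card (Fin m) + 1 := ⟨_, rfl⟩
  obtain ⟨Q, hQ⟩ : ∃ Q : ℝ, Q = Fintype.card ((Fin m → Fin N) ×
    (Fin (Fintype.card (Fin m) + 1) → Fin (nK m E))) * (impC m (E + 1) *
      ((m + 1) * ((2 * K) ^ m * C₁))) := ⟨_, rfl⟩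
  have himp := impC_nonneg m (E + 1)
  have hQ0 : 0 ≤ Q := by rw [hQ]; positivity
  refine ⟨1 + Q, by linarith, ?_⟩
  intro F hF c a h r t b θ x hh hhr htr hθ hx
  have hr0 : 0 < r := hh.trans_le hhr
  obtain ⟨s, hs⟩ : ∃ s : (Fin (Fintype.card (Fin m) + 1) → Fin (nK m E)) →
      Fin (Fintype.card (Fin m) + 1) → ℝ,
      s = fun σ j => (a + h * nd (nK m E) (σ j)) - t := ⟨_, rfl⟩
  obtain ⟨V, hV⟩ : ∃ V : (Fin m → Fin N) × (Fin (Fintype.card (Fin m) + 1) → Fin (nK m E)) →
      Set (Fin m → ℝ), V = fun q => if Function.Injective q.2 then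
        {y : Fin m → ℝ | ‖y‖ ≤ |b| + |t| * |b| ∧ ∃ A : Fin m → ℝ, ‖A‖ ≤ 1 ∧ ∀ j,
        (∀ k, |eval (fun i => y i + s q.2 j * ((0 : Fin m → ℝ) i + |b| * A i))
          (eqn F q.1 (a + h * nd (nK m E) (q.2 j)) 1
            (fun e => c e (a + h * nd (nK m E) (q.2 j))) k)| ≤ θ) ∧
        x / C₁ ≤ |(jac (eqn F q.1 (a + h * nd (nK m E) (q.2 j)) 1
            (fun e => c e (a + h * nd (nK m E) (q.2 j))))
          (fun i => y i + s q.2 j * ((0 : Fin m → ℝ) i + |b| * A i))).det|} else ∅ := ⟨_, rfl⟩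
  have hsub : (fun l => lpos l t) '' LV F c (Set.Icc a (a + h)) b θ x ⊆ ⋃ q, V q := by
    rintro _ ⟨l, ⟨hl, hl1, t₀, ht₀, hl2⟩, rfl⟩
    obtain ⟨S, hS⟩ := exists_jm (M := dM F (pnt t₀ (lpos l t₀))) (hx.trans_le hl2)
    obtain ⟨σ, hσ, hσ2⟩ := hnod N F hF S l.1 l.2 a h t₀ x hh ht₀ hx (by
      change x ≤ |mnr (dM F (pnt t₀ (lpos l t₀))) S|
      rw [hS]
      exact hl2)
    rw [Set.mem_iUnion]
    refine ⟨(S, σ), ?_⟩
    rw [hV]
    simp only [if_pos hσ]
    have hb : ∀ k, |l.2 k| ≤ |b| := fun k => (hl.2 k).trans (le_abs_self b)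
    have hb1 : ∀ k, |l.1 k| ≤ |b| := fun k => (hl.1 k).trans (le_abs_self b)
    have hb0 := abs_nonneg b
    -- the direction
    obtain ⟨A, hA⟩ : ∃ A : Fin m → ℝ, A = fun k => l.2 k / |b| := ⟨_, rfl⟩
    have hA1 : ∀ k, |b| * A k = l.2 k := by
      intro k
      rw [hA]
      rcases hb0.eq_or_lt with h0 | h0
      · have := hb k
        rw [← h0] at this
        have h2 : l.2 k = 0 := abs_eq_zero.1 (le_antisymm this (abs_nonneg _))
        rw [← h0, zero_mul, h2]
      · simp only
        field_simp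
    have hA2 : ‖A‖ ≤ 1 := by
      rw [pi_norm_le_iff_of_nonneg zero_le_one]
      intro k
      rw [Real.norm_eq_abs, hA]
      simp only
      rw [abs_div, abs_abs]
      exact div_le_one_of_le₀ (hb k) hb0
    have hpos : ∀ j, (fun i => lpos l t i + s σ j * ((0 : Fin m → ℝ) i + |b| * A i)) =
        lpos l (a + h * nd (nK m E) (σ j)) := by
      intro j
      funext i
      rw [hs]
      simp only [Pi.zero_apply, zero_add]
      rw [hA1]
      unfold lpos
      ring
    refine ⟨?_, A, hA2, fun j => ⟨fun k => ?_, ?_⟩⟩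
    · rw [pi_norm_le_iff_of_nonneg (by positivity)]
      intro k
      rw [Real.norm_eq_abs]
      unfold lpos
      refine (abs_add_le _ _).trans (add_le_add (hb1 k) ?_)
      rw [abs_mul]
      exact mul_le_mul_of_nonneg_left (hb k) (abs_nonneg _)
    · rw [hpos, eval_eqn]
      simp only [one_mul]
      refine hl1 _ ?_ _
      have h1 := nd_mem (nK m E) (σ j)
      have h2 := mul_nonneg hh.le h1.1
      have h3 := mul_le_mul_of_nonneg_left h1.2 hh.le
      constructor <;> linarith
    · rw [hpos, jac_eqn]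
      simp only [one_mul, one_pow]
      exact hσ2 j
  refine (MeasureTheory.measure_mono hsub).trans ?_
  refine (MeasureTheory.measure_iUnion_fintype_le _ _).trans ?_
  have hVq : ∀ q, MeasureTheory.volume (V q) ≤ ENNReal.ofReal (impC m (E + 1) *
      ((m + 1) * ((2 * K) ^ m * C₁)) * ((r / h) ^ m * θ ^ m / x)) := by
    intro q
    rw [hV]
    simp only
    split_ifs with hσ
    · have hsinj : Function.Injective (s q.2) := by
        intro i j hij
        by_contra hne
        rw [hs] at hij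
        have h1 := nodes_sep (a := a) (K := nK m E) hh hσ hne
        have h2 : (a + h * nd (nK m E) (q.2 i)) = (a + h * nd (nK m E) (q.2 j)) := by
          have := hij
          simp only at this
          linarith
        rw [h2, sub_self, abs_zero, ← hK] at h1
        have : 0 < h / (K : ℝ) := by positivity
        linarith
      have h1 := vol_imp_sec (μ := Fin m) (d := E + 1) (Nat.succ_le_succ (Nat.zero_le _))
        (|b| + |t| * |b|) (fun j => eqn F q.1 (a + h * nd (nK m E) (q.2 j)) 1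
            (fun e => c e (a + h * nd (nK m E) (q.2 j))))
        (fun j k => (deg_eqn F hF q.1 _ _ _ k).trans (Nat.le_succ E))
        (fun _ _ => θ) (fun _ _ => hθ) (fun _ => x / C₁)
        (fun _ => div_pos hx (lt_of_lt_of_le one_pos hC₁)) (s q.2) hsinj (0 : Fin m → ℝ) |b|
      have ei : impC (Fintype.card (Fin m)) (E + 1) = impC m (E + 1) := by
        rw [Fintype.card_fin]
      rw [ei] at h1
      refine h1.trans (ENNReal.ofReal_le_ofReal ?_)
      rw [mul_assoc (impC m (E + 1))]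
      refine mul_le_mul_of_nonneg_left ?_ himp
      have hprod : ∏ _k : Fin m, θ = θ ^ m := by
        rw [Finset.prod_const, Finset.card_univ, Fintype.card_fin]
      simp only [hprod]
      have hx0 : 0 < x / C₁ := div_pos hx (lt_of_lt_of_le one_pos hC₁)
      have hwz : ∀ j, wz (s q.2) j * θ ^ m / (x / C₁) ≤
          (2 * K * (r / h)) ^ m * θ ^ m / (x / C₁) := by
        intro j
        refine div_le_div_of_nonneg_right ?_ hx0.le
        refine mul_le_mul_of_nonneg_right ?_ (by positivity)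
        refine wz_le' hh hKr hhr ?_ ?_ j
        · intro i
          rw [hs]
          simp only
          have g1 := nd_mem (nK m E) (q.2 i)
          have e : a + h * nd (nK m E) (q.2 i) - t = -(t - a) + h * nd (nK m E) (q.2 i) := by ring
          rw [e]
          refine (abs_add_le _ _).trans ?_
          rw [abs_neg, abs_mul, abs_of_pos hh, abs_of_nonneg g1.1]
          have := mul_le_mul_of_nonneg_left g1.2 hh.le
          linarith
        · intro i j hij
          rw [hs]
          simp only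
          have g1 := nodes_sep (a := a) (K := nK m E) hh hσ hij
          have e : a + h * nd (nK m E) (q.2 i) - t - (a + h * nd (nK m E) (q.2 j) - t) =
            a + h * nd (nK m E) (q.2 i) - (a + h * nd (nK m E) (q.2 j)) := by ring
          rw [e]
          refine le_trans (le_of_eq ?_) g1
          rw [hK]
      refine (Finset.sum_le_sum fun j _ => hwz j).trans (le_of_eq ?_)
      rw [Finset.sum_const, Finset.card_univ, Fintype.card_fin, Fintype.card_fin, nsmul_eq_mul,
        mul_pow (2 * (K : ℝ))]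
      push_cast
      have hC0 : C₁ ≠ 0 := (lt_of_lt_of_le one_pos hC₁).ne'
      field_simp
    · rw [MeasureTheory.measure_empty]
      exact zero_le
  refine (Finset.sum_le_sum fun q _ => hVq q).trans ?_
  rw [Finset.sum_const, Finset.card_univ, nsmul_eq_mul, ← ENNReal.ofReal_natCast,
    ← ENNReal.ofReal_mul (Nat.cast_nonneg _)]
  refine ENNReal.ofReal_le_ofReal ?_
  rw [← mul_assoc, ← hQ]
  have h1 : 0 ≤ (r / h) ^ m * θ ^ m / x := by positivity
  have h2 : (1 + Q) * (r / h) ^ m * θ ^ m / x = (1 + Q) * ((r / h) ^ m * θ ^ m / x) := by ring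
  rw [h2]
  nlinarith only [h1]

end Pool.BJ
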